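import Mathlib

set_option autoImplicit false

namespace Pool.Agent.H27Z.NW

open Set Filter Topology MeasureTheory Metric Real

abbrev E3 := EuclideanSpace ℝ (Fin 3)

abbrev E2 := EuclideanSpace ℝ (Fin 2)

lemma int_pow (x : E3) (r : ℝ) {α : ℝ} (hα : α < 3) :
    IntegrableOn (fun y : E3 => ‖x - y‖ ^ (-α)) (ball 0 r) := by
  have h1 : IntegrableOn (fun y : E3 => ‖y‖ ^ (-α)) (ball 0 (r + ‖x‖)) := by
    refine integrableOn_ball_of_norm_le_rpow (C := 1) (α := α) (by simp) (by simpa using hα)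
      (Eventually.of_forall fun t => ?_) ?_
    · rw [Real.norm_eq_abs, one_mul, abs_of_nonneg (Real.rpow_nonneg (norm_nonneg t) _)]
    · exact (Measurable.pow_const measurable_norm _).aestronglyMeasurable
  have h2 := (Measure.measurePreserving_sub_left (volume : Measure E3) x).integrableOn_comp_preimage
    (MeasurableEquiv.subLeft x).measurableEmbedding (f := fun y : E3 => ‖y‖ ^ (-α))
    (s := ball 0 (r + ‖x‖))
  refine (h2.2 h1).mono_set fun y hy => ?_
  rw [mem_preimage, mem_ball_zero_iff] at *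
  linarith [norm_sub_le x y]

lemma int_inv (x : E3) (r : ℝ) : IntegrableOn (fun y : E3 => ‖x - y‖⁻¹) (ball 0 r) := by
  have := int_pow x r (α := 1) (by norm_num)
  simpa [Real.rpow_neg_one] using this

lemma int_inv_sq (x : E3) (r : ℝ) : IntegrableOn (fun y : E3 => (‖x - y‖⁻¹) ^ 2) (ball 0 r) := by
  have := int_pow x r (α := 2) (by norm_num)
  simpa [Real.rpow_neg (norm_nonneg _)] using this

/-- potential of a ball of radius `r` at distance `a` from the centre -/
noncomputable def kr (r a : ℝ) : ℝ :=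
  if a ≤ r then 2 * π * r ^ 2 - 2 * π / 3 * a ^ 2 else 4 * π / 3 * r ^ 3 / a

lemma disc {b ρ : ℝ} (hb : b ≠ 0) (hρ : 0 < ρ) :
    ∫ y in ball (0 : E2) ρ, (√(b ^ 2 + ‖y‖ ^ 2))⁻¹ = 2 * π * (√(b ^ 2 + ρ ^ 2) - |b|) := by
  have h1 : ∫ y in ball (0 : E2) ρ, (√(b ^ 2 + ‖y‖ ^ 2))⁻¹ =
      ∫ y : E2, (Iio ρ).indicator (fun s => (√(b ^ 2 + s ^ 2))⁻¹) ‖y‖ := by
    rw [← integral_indicator measurableSet_ball]
    congr 1
    funext y
    by_cases hy : ‖y‖ < ρ
    · rw [indicator_of_mem (mem_ball_zero_iff.2 hy), indicator_of_mem (mem_Iio.2 hy)]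
    · rw [indicator_of_notMem (fun h => hy (mem_ball_zero_iff.1 h)),
        indicator_of_notMem (fun h => hy (mem_Iio.1 h))]
  rw [h1, integral_fun_norm_addHaar]
  have h2 : (volume : Measure E2).real (ball 0 1) = π := by
    rw [Measure.real, EuclideanSpace.volume_ball_fin_two]
    simp [pi_pos.le]
  have h3 : ∫ y in Ioi (0 : ℝ), y ^ (Module.finrank ℝ E2 - 1) •
      (Iio ρ).indicator (fun s => (√(b ^ 2 + s ^ 2))⁻¹) y =
      ∫ y in (0 : ℝ)..ρ, y * (√(b ^ 2 + y ^ 2))⁻¹ := by
    rw [intervalIntegral.integral_of_le hρ.le, integral_Ioc_eq_integral_Ioo,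
      ← Ioi_inter_Iio, ← setIntegral_indicator measurableSet_Iio]
    congr 1
    funext y
    by_cases hy : y ∈ Iio ρ
    · simp [indicator_of_mem hy]
    · simp [indicator_of_notMem hy]
  have hpos : ∀ y : ℝ, 0 < b ^ 2 + y ^ 2 := fun y => by positivity
  have h4 : ∫ y in (0 : ℝ)..ρ, y * (√(b ^ 2 + y ^ 2))⁻¹ =
      √(b ^ 2 + ρ ^ 2) - √(b ^ 2 + 0 ^ 2) := by
    refine intervalIntegral.integral_eq_sub_of_hasDerivAt (f := fun y => √(b ^ 2 + y ^ 2))
      (fun y _ => ?_) ?_
    · refine ((((hasDerivAt_id' y).fun_pow 2).const_add (b ^ 2)).sqrt (hpos y).ne').congr_deriv ?_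
      have := (Real.sqrt_pos.2 (hpos y)).ne'
      field_simp
      norm_num
    · refine Continuous.intervalIntegrable ?_ _ _
      exact continuous_id.mul (Continuous.inv₀ (by fun_prop)
        fun y => (Real.sqrt_pos.2 (hpos y)).ne')
  rw [h2, h3, h4]
  simp [Real.sqrt_sq_eq_abs]
  ring

lemma outer {r a : ℝ} (hr : 0 < r) (ha : 0 ≤ a) :
    ∫ t in (-r)..r, 2 * π * (√((a - t) ^ 2 + (r ^ 2 - t ^ 2)) - |a - t|) = kr r a := by
  rw [intervalIntegral.integral_const_mul, intervalIntegral.integral_sub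
    (by apply Continuous.intervalIntegrable; fun_prop)
    (by apply Continuous.intervalIntegrable; fun_prop)]
  have hlin : ∀ u v : ℝ, ∫ t in u..v, (a - t) = a * (v - u) - (v ^ 2 - u ^ 2) / 2 := by
    intro u v
    rw [intervalIntegral.integral_sub (by apply Continuous.intervalIntegrable; fun_prop)
      (by apply Continuous.intervalIntegrable; fun_prop)]
    simp
    ring
  have habs : ∫ t in (-r)..r, |a - t| = if a ≤ r then r ^ 2 + a ^ 2 else 2 * a * r := by
    split_ifs with h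
    · rw [← intervalIntegral.integral_add_adjacent_intervals (b := a)
        (by apply Continuous.intervalIntegrable; fun_prop)
        (by apply Continuous.intervalIntegrable; fun_prop)]
      have e1 : ∫ t in (-r)..a, |a - t| = ∫ t in (-r)..a, (a - t) := by
        refine intervalIntegral.integral_congr fun t ht => ?_
        rw [uIcc_of_le (by linarith)] at ht
        exact abs_of_nonneg (by linarith [ht.2])
      have e2 : ∫ t in a..r, |a - t| = ∫ t in a..r, -(a - t) := by
        refine intervalIntegral.integral_congr fun t ht => ?_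
        rw [uIcc_of_le h] at ht
        exact abs_of_nonpos (by linarith [ht.1])
      rw [e1, e2, intervalIntegral.integral_neg, hlin, hlin]
      ring
    · have e1 : ∫ t in (-r)..r, |a - t| = ∫ t in (-r)..r, (a - t) := by
        refine intervalIntegral.integral_congr fun t ht => ?_
        rw [uIcc_of_le (by linarith)] at ht
        exact abs_of_nonneg (by linarith [ht.2])
      rw [e1, hlin]
      ring
  rw [habs]
  rcases ha.eq_or_lt with h | h
  · subst h
    have e1 : ∫ t in (-r)..r, √((0 - t) ^ 2 + (r ^ 2 - t ^ 2)) = ∫ t in (-r)..r, r := by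
      refine intervalIntegral.integral_congr fun t _ => ?_
      rw [show (0 - t) ^ 2 + (r ^ 2 - t ^ 2) = r ^ 2 by ring, Real.sqrt_sq hr.le]
    rw [e1]
    simp [kr, hr.le]
    ring
  · have e1 : ∫ t in (-r)..r, √((a - t) ^ 2 + (r ^ 2 - t ^ 2)) =
        -(√(a ^ 2 + r ^ 2 - 2 * a * r)) ^ 3 / (3 * a) -
          -(√(a ^ 2 + r ^ 2 - 2 * a * (-r))) ^ 3 / (3 * a) := by
      refine intervalIntegral.integral_eq_sub_of_hasDerivAt_of_le
        (f := fun t => -(√(a ^ 2 + r ^ 2 - 2 * a * t)) ^ 3 / (3 * a)) (by linarith)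
        (by fun_prop) (fun t ht => ?_) (by apply Continuous.intervalIntegrable; fun_prop)
      have hp : 0 < a ^ 2 + r ^ 2 - 2 * a * t := by nlinarith [ht.2, sq_nonneg (a - r)]
      have d1 := ((hasDerivAt_id' t).const_mul (2 * a)).const_sub (a ^ 2 + r ^ 2)
      refine ((((d1.sqrt hp.ne').fun_pow 3).fun_neg).div_const (3 * a)).congr_deriv ?_
      rw [show (a - t) ^ 2 + (r ^ 2 - t ^ 2) = a ^ 2 + r ^ 2 - 2 * a * t by ring]
      have := (Real.sqrt_pos.2 hp).ne'
      generalize √(a ^ 2 + r ^ 2 - 2 * a * t) = w at this ⊢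
      field_simp
      norm_num
      ring
    rw [e1, show a ^ 2 + r ^ 2 - 2 * a * r = (a - r) ^ 2 by ring,
      show a ^ 2 + r ^ 2 - 2 * a * (-r) = (a + r) ^ 2 by ring, Real.sqrt_sq_eq_abs,
      Real.sqrt_sq (by linarith)]
    unfold kr
    split_ifs with h'
    · rw [abs_of_nonpos (by linarith)]
      field_simp
      ring
    · rw [abs_of_nonneg (by linarith)]
      field_simp
      ring

/-- drop the first coordinate -/
noncomputable def tl (x : E3) : E2 := WithLp.toLp 2 fun i => x i.succ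

lemma norm_split (x : E3) : ‖x‖ ^ 2 = x 0 ^ 2 + ‖tl x‖ ^ 2 := by
  rw [EuclideanSpace.real_norm_sq_eq, EuclideanSpace.real_norm_sq_eq, Fin.sum_univ_succ]
  rfl

lemma ball_axis {r a : ℝ} (hr : 0 < r) (ha : 0 ≤ a) :
    ∫ y in ball (0 : E3) r, ‖EuclideanSpace.single 0 a - y‖⁻¹ = kr r a := by
  obtain ⟨x, hx⟩ : ∃ x : E3, x = EuclideanSpace.single 0 a := ⟨_, rfl⟩
  rw [← hx]
  let F : E3 → ℝ := (ball (0 : E3) r).indicator fun y => ‖x - y‖⁻¹
  have hF : Integrable F := (integrable_indicator_iff measurableSet_ball).2 (int_inv x r)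
  have m1 := PiLp.volume_preserving_toLp (Fin 3)
  have m2 := (volume_preserving_piFinSuccAbove (fun _ : Fin 3 => ℝ) 0).symm
  have m3 : MeasurePreserving (Prod.map id (WithLp.ofLp : E2 → (Fin 2 → ℝ)))
      ((volume : Measure ℝ).prod volume) ((volume : Measure ℝ).prod volume) :=
    (MeasurePreserving.id volume).prod (PiLp.volume_preserving_ofLp (Fin 2))
  have m := (m1.comp m2).comp m3
  obtain ⟨Ψ, hΨ⟩ : ∃ Ψ : ℝ × E2 → E3, Ψ = (WithLp.toLp 2 ∘
    (MeasurableEquiv.piFinSuccAbove (fun _ : Fin 3 => ℝ) 0).symm) ∘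
      Prod.map id (WithLp.ofLp : E2 → (Fin 2 → ℝ)) := ⟨_, rfl⟩
  rw [← hΨ] at m
  have hΨ0 : ∀ s y, Ψ (s, y) 0 = s := fun s y => by rw [hΨ]; rfl
  have hΨt : ∀ s y, tl (Ψ (s, y)) = y := fun s y => by
    rw [hΨ]
    ext i
    simp [tl, MeasurableEquiv.piFinSuccAbove]
  have e1 : ∫ x, F x = ∫ q, F (Ψ q) ∂((volume : Measure ℝ).prod volume) := by
    rw [← m.map_eq, integral_map m.measurable.aemeasurable]
    rw [m.map_eq]
    exact hF.aestronglyMeasurable
  rw [← integral_indicator measurableSet_ball]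
  change ∫ x, F x = _
  rw [e1, integral_prod (fun q => F (Ψ q)) (m.integrable_comp_of_integrable hF)]
  have hd : ∀ s y, ‖x - Ψ (s, y)‖ = √((a - s) ^ 2 + ‖y‖ ^ 2) := by
    intro s y
    have b1 := norm_split (x - Ψ (s, y))
    have b2 : tl (x - Ψ (s, y)) = -y := by
      have b4 : tl (x - Ψ (s, y)) = - tl (Ψ (s, y)) := by
        rw [hx]
        ext i
        simp [tl]
      rw [b4, hΨt]
    have b3 : (x - Ψ (s, y)) 0 = a - s := by
      rw [PiLp.sub_apply, hΨ0, hx]
      simp
    rw [b2, b3, norm_neg] at b1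
    rw [← b1, Real.sqrt_sq (norm_nonneg _)]
  have e2 : ∀ s : ℝ, s ≠ a → ∫ y, F (Ψ (s, y)) = (Ioo (-r) r).indicator
      (fun s => 2 * π * (√((a - s) ^ 2 + (r ^ 2 - s ^ 2)) - |a - s|)) s := by
    intro s hsa
    by_cases hs : s ∈ Ioo (-r) r
    · have hu : 0 < r ^ 2 - s ^ 2 := by nlinarith [hs.1, hs.2]
      have hρ := Real.sqrt_pos.2 hu
      have a1 : ∀ y, F (Ψ (s, y)) = (ball (0 : E2) √(r ^ 2 - s ^ 2)).indicator
          (fun y => (√((a - s) ^ 2 + ‖y‖ ^ 2))⁻¹) y := by
        intro y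
        have b1 := norm_split (Ψ (s, y))
        rw [hΨ0, hΨt] at b1
        have b2 : Ψ (s, y) ∈ ball (0 : E3) r ↔ y ∈ ball (0 : E2) √(r ^ 2 - s ^ 2) := by
          rw [mem_ball_zero_iff, mem_ball_zero_iff, Real.lt_sqrt (norm_nonneg _),
            ← sq_lt_sq₀ (norm_nonneg _) hr.le, b1]
          constructor <;> intro h <;> linarith
        by_cases hy : y ∈ ball (0 : E2) √(r ^ 2 - s ^ 2)
        · simp only [F]
          rw [indicator_of_mem hy, indicator_of_mem (b2.2 hy), hd]
        · simp only [F]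
          rw [indicator_of_notMem hy, indicator_of_notMem (fun h => hy (b2.1 h))]
      simp only [a1]
      rw [indicator_of_mem hs, integral_indicator measurableSet_ball,
        disc (sub_ne_zero.2 hsa.symm) hρ, Real.sq_sqrt hu.le]
    · rw [indicator_of_notMem hs]
      have a1 : ∀ y, F (Ψ (s, y)) = 0 := by
        intro y
        refine indicator_of_notMem (fun h => hs ?_) _
        have b1 := norm_split (Ψ (s, y))
        rw [hΨ0, hΨt] at b1
        rw [mem_ball_zero_iff, ← sq_lt_sq₀ (norm_nonneg _) hr.le, b1] at h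
        have : s ^ 2 < r ^ 2 := by nlinarith [sq_nonneg ‖y‖]
        exact abs_lt.1 (abs_lt_of_sq_lt_sq this hr.le)
      simp [a1]
  rw [integral_congr_ae (g := (Ioo (-r) r).indicator
      (fun s => 2 * π * (√((a - s) ^ 2 + (r ^ 2 - s ^ 2)) - |a - s|)))
      (by filter_upwards [compl_mem_ae_iff.2 (measure_singleton a)] with s hs using e2 s hs),
    integral_indicator measurableSet_Ioo, ← outer hr ha,
    intervalIntegral.integral_of_le (by linarith), integral_Ioc_eq_integral_Ioo]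

theorem ball_pot {r : ℝ} (hr : 0 < r) (x c : E3) :
    ∫ y in ball c r, ‖x - y‖⁻¹ = kr r ‖x - c‖ := by
  have h0 : ∀ x : E3, ∫ y in ball (0 : E3) r, ‖x - y‖⁻¹ = kr r ‖x‖ := by
    intro x
    have hn : ‖x‖ = ‖(EuclideanSpace.single 0 ‖x‖ : E3)‖ := by simp
    obtain ⟨L, hL⟩ : ∃ L : E3 ≃ₗᵢ[ℝ] E3, L x = EuclideanSpace.single 0 ‖x‖ :=
      ⟨_, Submodule.reflection_sub hn⟩
    rw [← ball_axis hr (norm_nonneg x), ← hL]
    have := L.measurePreserving.setIntegral_preimage_emb L.toHomeomorph.measurableEmbedding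
      (fun y => ‖L x - y‖⁻¹) (ball (0 : E3) r)
    rw [← this]
    have e : L ⁻¹' ball (0 : E3) r = ball 0 r := by
      ext y; simp
    rw [e]
    congr 1
    funext y
    rw [← map_sub, L.norm_map]
  have := (measurePreserving_add_right (volume : Measure E3) c).setIntegral_preimage_emb
    (MeasurableEquiv.addRight c).measurableEmbedding (fun y => ‖x - y‖⁻¹) (ball c r)
  rw [← this, ← h0 (x - c)]
  have e : (fun y => y + c) ⁻¹' ball c r = ball 0 r := by
    ext y; simp [mem_ball, dist_eq_norm]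
  rw [e]
  congr 1
  funext y
  congr 2
  abel

end Pool.Agent.H27Z.NW
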