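import Mathlib
import Pool.Agent.H27Z.NW.Ball

set_option autoImplicit false

namespace Pool.Agent.H27Z.NW

open Set Filter Topology MeasureTheory Metric Real

/-- bounded measurable densities with bounded support -/
structure Adm (g : E3 → ℝ) : Prop where
  meas : Measurable g
  bdd : ∃ B : ℝ, ∀ y, |g y| ≤ B
  supp : ∃ ρ : ℝ, 0 < ρ ∧ ∀ y, ρ ≤ ‖y‖ → g y = 0

/-- Newtonian potential -/
noncomputable def N (g : E3 → ℝ) (x : E3) : ℝ := ∫ y, g y * ‖x - y‖⁻¹

variable {f g : E3 → ℝ}

lemma Adm.add (hf : Adm f) (hg : Adm g) : Adm (fun y => f y + g y) := by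
  obtain ⟨B1, h1⟩ := hf.bdd
  obtain ⟨B2, h2⟩ := hg.bdd
  obtain ⟨r1, p1, k1⟩ := hf.supp
  obtain ⟨r2, p2, k2⟩ := hg.supp
  refine ⟨hf.meas.add hg.meas, ⟨B1 + B2, fun y => (abs_add_le _ _).trans (add_le_add (h1 y) (h2 y))⟩,
    ⟨max r1 r2, lt_max_of_lt_left p1, fun y hy => ?_⟩⟩
  rw [k1 y (le_trans (le_max_left _ _) hy), k2 y (le_trans (le_max_right _ _) hy), add_zero]

lemma Adm.cmul (hf : Adm f) (c : ℝ) : Adm (fun y => c * f y) := by
  obtain ⟨B1, h1⟩ := hf.bdd
  obtain ⟨r1, p1, k1⟩ := hf.supp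
  refine ⟨hf.meas.const_mul c, ⟨|c| * B1, fun y => ?_⟩, ⟨r1, p1, fun y hy => ?_⟩⟩
  · rw [abs_mul]; exact mul_le_mul_of_nonneg_left (h1 y) (abs_nonneg c)
  · rw [k1 y hy, mul_zero]

lemma Adm.sub (hf : Adm f) (hg : Adm g) : Adm (fun y => f y - g y) := by
  have := hf.add (hg.cmul (-1))
  simpa [sub_eq_add_neg] using this

lemma Adm.abs (hf : Adm f) : Adm (fun y => |f y|) := by
  obtain ⟨B1, h1⟩ := hf.bdd
  obtain ⟨r1, p1, k1⟩ := hf.supp
  exact ⟨hf.meas.abs, ⟨B1, fun y => by rw [abs_abs]; exact h1 y⟩,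
    ⟨r1, p1, fun y hy => by rw [k1 y hy, abs_zero]⟩⟩

lemma adm_ind {S : Set E3} (hS : MeasurableSet S) {ρ : ℝ} (hρ : 0 < ρ) (h : S ⊆ ball 0 ρ) :
    Adm (S.indicator fun _ => (1 : ℝ)) := by
  refine ⟨measurable_const.indicator hS, ⟨1, fun y => ?_⟩, ⟨ρ, hρ, fun y hy => ?_⟩⟩
  · by_cases hy : y ∈ S <;> simp [hy]
  · exact indicator_of_notMem (fun h' => absurd (mem_ball_zero_iff.1 (h h')) (not_lt.2 hy)) _

lemma Adm.int_mul (hg : Adm g) {h : E3 → ℝ} (hh : ∀ r, IntegrableOn h (ball 0 r)) :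
    Integrable (fun y => g y * h y) := by
  obtain ⟨B, hB⟩ := hg.bdd
  obtain ⟨ρ, -, hρ⟩ := hg.supp
  have h1 : IntegrableOn (fun y => g y * h y) (ball 0 ρ) :=
    (hh ρ).bdd_mul (c := B) hg.meas.aestronglyMeasurable (Eventually.of_forall hB)
  refine (integrableOn_iff_integrable_of_support_subset fun y hy => ?_).1 h1
  by_contra h2
  rw [mem_ball_zero_iff, not_lt] at h2
  exact hy (by simp [hρ y h2])

lemma Adm.intN (hg : Adm g) (x : E3) : Integrable (fun y => g y * ‖x - y‖⁻¹) :=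
  hg.int_mul (int_inv x)

lemma Adm.int_cont (hg : Adm g) {h : E3 → ℝ} (hh : Continuous h) :
    Integrable (fun y => g y * h y) :=
  hg.int_mul fun r => (hh.continuousOn.integrableOn_compact (isCompact_closedBall 0 r)).mono_set
    ball_subset_closedBall

lemma Adm.int (hg : Adm g) : Integrable g := by
  simpa using hg.int_cont (continuous_const (y := (1 : ℝ)))

lemma N_add (hf : Adm f) (hg : Adm g) (x : E3) : N (fun y => f y + g y) x = N f x + N g x := by
  unfold N
  rw [← integral_add (hf.intN x) (hg.intN x)]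
  congr 1; funext y; ring

lemma N_cmul (c : ℝ) (x : E3) : N (fun y => c * f y) x = c * N f x := by
  unfold N
  rw [← integral_const_mul]
  congr 1; funext y; ring

lemma N_sub (hf : Adm f) (hg : Adm g) (x : E3) : N (fun y => f y - g y) x = N f x - N g x := by
  unfold N
  rw [← integral_sub (hf.intN x) (hg.intN x)]
  congr 1; funext y; ring

lemma N_congr (h : f =ᵐ[volume] g) (x : E3) : N f x = N g x := by
  refine integral_congr_ae ?_
  filter_upwards [h] with y hy
  rw [hy]

lemma N_ind {S : Set E3} (hS : MeasurableSet S) (x : E3) :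
    N (S.indicator fun _ => (1 : ℝ)) x = ∫ y in S, ‖x - y‖⁻¹ := by
  unfold N
  rw [← integral_indicator hS]
  congr 1; funext y
  by_cases hy : y ∈ S <;> simp [hy]

lemma kr_nonneg {r a : ℝ} (hr : 0 < r) (ha : 0 ≤ a) : 0 ≤ kr r a := by
  unfold kr
  split_ifs with h
  · have : a ^ 2 ≤ r ^ 2 := by gcongr
    nlinarith [pi_pos, mul_nonneg pi_pos.le (sub_nonneg.2 this), mul_nonneg pi_pos.le (sq_nonneg r)]
  · positivity

lemma kr_le {r a : ℝ} (hr : 0 < r) : kr r a ≤ 2 * π * r ^ 2 := by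
  unfold kr
  split_ifs with h
  · nlinarith [mul_nonneg pi_pos.le (sq_nonneg a)]
  · have h1 : r < a := not_le.1 h
    rw [div_le_iff₀ (by linarith)]
    have : 0 < π * r ^ 2 := by positivity
    nlinarith

lemma kr_continuous {r : ℝ} (hr : 0 < r) : Continuous (kr r) := by
  unfold kr
  refine continuous_if_le continuous_id continuous_const (by fun_prop) ?_ ?_
  · exact ContinuousOn.div continuousOn_const continuousOn_id fun a ha => by
      have : r ≤ a := ha
      exact (lt_of_lt_of_le hr this).ne'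
  · rintro a rfl
    field_simp
    ring

lemma abs_N_le {B ρ : ℝ} (hρ : 0 < ρ) (hB : ∀ y, |g y| ≤ B) (hs : ∀ y, ρ ≤ ‖y‖ → g y = 0)
    (x : E3) : |N g x| ≤ B * (2 * π * ρ ^ 2) := by
  have hB0 : 0 ≤ B := le_trans (abs_nonneg _) (hB 0)
  have h1 : ‖N g x‖ ≤ ∫ y, (ball (0 : E3) ρ).indicator (fun y => B * ‖x - y‖⁻¹) y := by
    refine norm_integral_le_of_norm_le
      ((integrable_indicator_iff measurableSet_ball).2 ((int_inv x ρ).const_mul B))
      (Eventually.of_forall fun y => ?_)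
    by_cases hy : y ∈ ball (0 : E3) ρ
    · rw [indicator_of_mem hy, Real.norm_eq_abs, abs_mul, abs_inv, abs_norm]
      exact mul_le_mul_of_nonneg_right (hB y) (by positivity)
    · rw [indicator_of_notMem hy, hs y (not_lt.1 fun h => hy (mem_ball_zero_iff.2 h))]
      simp
  rw [integral_indicator measurableSet_ball, integral_const_mul, ball_pot hρ] at h1
  exact h1.trans (mul_le_mul_of_nonneg_left (kr_le hρ) hB0)

lemma Adm.N_bdd (hg : Adm g) : ∃ C, ∀ x, |N g x| ≤ C := by
  obtain ⟨B, hB⟩ := hg.bdd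
  obtain ⟨ρ, hρ, hs⟩ := hg.supp
  exact ⟨_, abs_N_le hρ hB hs⟩

lemma int_inv' (x c : E3) (r : ℝ) : IntegrableOn (fun y : E3 => ‖x - y‖⁻¹) (ball c r) :=
  (int_inv x (r + ‖c‖)).mono_set fun y hy => by
    rw [mem_ball_zero_iff]
    rw [mem_ball, dist_eq_norm] at hy
    linarith [norm_le_norm_sub_add y c]

lemma avg_N (hg : Adm g) {r : ℝ} (hr : 0 < r) (x : E3) :
    ∫ z in ball x r, N g z = ∫ y, g y * kr r ‖x - y‖ := by
  unfold N
  have hm : Measurable (fun q : E3 × E3 => g q.2 * ‖q.1 - q.2‖⁻¹) :=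
    (hg.meas.comp measurable_snd).mul (by fun_prop)
  have hin : ∀ y, ∫ z in ball x r, ‖z - y‖⁻¹ = kr r ‖x - y‖ := by
    intro y
    rw [norm_sub_rev x y, ← ball_pot hr y x]
    simp only [norm_sub_rev]
  rw [integral_integral_swap]
  · congr 1
    funext y
    rw [integral_const_mul, hin]
  · refine (integrable_prod_iff' hm.aestronglyMeasurable).2 ⟨Eventually.of_forall fun y => ?_, ?_⟩
    · have := (int_inv' y x r).const_mul (g y)
      simpa only [norm_sub_rev] using this
    · have e : (fun y => ∫ z in ball x r, ‖g y * ‖z - y‖⁻¹‖) =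
          fun y => |g y| * kr r ‖x - y‖ := by
        funext y
        rw [← hin, ← integral_const_mul]
        congr 1; funext z
        rw [Real.norm_eq_abs, abs_mul, abs_inv, abs_norm]
      simp only at e ⊢
      rw [e]
      exact hg.abs.int_cont ((kr_continuous hr).comp (by fun_prop))

/-- the defect kernel -/
noncomputable def kap (r a : ℝ) : ℝ := a⁻¹ - (4 * π / 3 * r ^ 3)⁻¹ * kr r a

lemma kap_out {r a : ℝ} (hr : 0 < r) (h : r ≤ a) : kap r a = 0 := by
  unfold kap kr
  have := pi_pos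
  have ha : 0 < a := lt_of_lt_of_le hr h
  split_ifs with h'
  · obtain rfl : a = r := le_antisymm h' h
    field_simp
    ring
  · field_simp
    ring

lemma kap_pos {r a : ℝ} (ha : 0 < a) (h : a < r) : 0 < kap r a := by
  have hr : 0 < r := ha.trans h
  have := pi_pos
  have e : kap r a = (r - a) ^ 2 * (2 * r + a) / (2 * r ^ 3 * a) := by
    unfold kap kr
    rw [if_pos h.le]
    field_simp
    ring
  rw [e]
  have : 0 < r - a := by linarith
  positivity

lemma kap_le {r a : ℝ} (hr : 0 < r) (ha : 0 ≤ a) : kap r a ≤ a⁻¹ := by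
  unfold kap
  have := kr_nonneg hr ha
  have : 0 ≤ (4 * π / 3 * r ^ 3)⁻¹ * kr r a := by have := pi_pos; positivity
  linarith

lemma ae_ne' (x : E3) : ∀ᵐ y : E3, 0 < ‖x - y‖ := by
  filter_upwards [compl_mem_ae_iff.2 (measure_singleton x)] with y hy
  exact norm_pos_iff.2 (sub_ne_zero.2 fun h => hy h.symm)

lemma int_kap (hg : Adm g) {r : ℝ} (hr : 0 < r) (x : E3) :
    Integrable (fun y => g y * kap r ‖x - y‖) := by
  have h1 := (hg.intN x).sub ((hg.int_cont ((kr_continuous hr).comp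
    (show Continuous fun y : E3 => ‖x - y‖ by fun_prop))).const_mul (4 * π / 3 * r ^ 3)⁻¹)
  refine h1.congr (Eventually.of_forall fun y => ?_)
  simp only [kap, Pi.sub_apply, Function.comp]
  ring

lemma N_eq (hg : Adm g) {r : ℝ} (hr : 0 < r) (x : E3) :
    N g x = (4 * π / 3 * r ^ 3)⁻¹ * (∫ y, g y * kr r ‖x - y‖) +
      ∫ y in ball x r, g y * kap r ‖x - y‖ := by
  have hk : Integrable (fun y => g y * kr r ‖x - y‖) := hg.int_cont ((kr_continuous hr).comp
      (show Continuous fun y : E3 => ‖x - y‖ by fun_prop))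
  rw [setIntegral_eq_integral_of_forall_compl_eq_zero (fun y hy => by
      rw [mem_ball', dist_eq_norm, not_lt] at hy
      rw [kap_out hr hy, mul_zero]), ← integral_const_mul, ← integral_add
    (hk.const_mul _) (int_kap hg hr x)]
  unfold N
  congr 1; funext y
  simp only [kap]
  ring

lemma Adm.N_cont (hg : Adm g) : Continuous (N g) := by
  obtain ⟨B, hB⟩ := hg.bdd
  have hB0 : 0 ≤ B := le_trans (abs_nonneg _) (hB 0)
  refine continuous_of_uniform_approx_of_continuous fun u hu => ?_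
  obtain ⟨ε, hε, hu'⟩ := Metric.mem_uniformity_dist.1 hu
  obtain ⟨r, hr, hr2⟩ : ∃ r : ℝ, 0 < r ∧ B * (2 * π * r ^ 2) < ε := by
    have hc : Continuous (fun r : ℝ => B * (2 * π * r ^ 2)) := by fun_prop
    have h1 : ∀ᶠ r in 𝓝[>] (0 : ℝ), B * (2 * π * r ^ 2) < ε :=
      ((hc.tendsto 0).mono_left nhdsWithin_le_nhds).eventually_lt_const (by simpa using hε)
    obtain ⟨r, h2, h3⟩ := (h1.and self_mem_nhdsWithin).exists
    exact ⟨r, h3, h2⟩
  refine ⟨fun x => (4 * π / 3 * r ^ 3)⁻¹ * ∫ y, g y * kr r ‖x - y‖, ?_, fun x => hu' ?_⟩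
  · refine continuous_const.mul (continuous_of_dominated (bound := fun y => |g y| * (2 * π * r ^ 2))
      (fun x => (hg.int_cont ((kr_continuous hr).comp
        (show Continuous fun y : E3 => ‖x - y‖ by fun_prop))).aestronglyMeasurable)
      (fun x => Eventually.of_forall fun y => ?_) (hg.abs.int.mul_const _)
      (Eventually.of_forall fun y => continuous_const.mul ((kr_continuous hr).comp (by fun_prop))))
    rw [Real.norm_eq_abs, abs_mul, abs_of_nonneg (kr_nonneg hr (norm_nonneg _))]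
    exact mul_le_mul_of_nonneg_left (kr_le hr) (abs_nonneg _)
  · rw [Real.dist_eq, N_eq hg hr x, add_sub_cancel_left]
    have h1 : ‖∫ y in ball x r, g y * kap r ‖x - y‖‖ ≤ ∫ y in ball x r, B * ‖x - y‖⁻¹ := by
      refine norm_integral_le_of_norm_le ((int_inv' x x r).const_mul B) ?_
      filter_upwards [ae_restrict_of_ae (ae_ne' x), ae_restrict_mem measurableSet_ball] with y h1 h2
      rw [mem_ball', dist_eq_norm] at h2
      rw [Real.norm_eq_abs, abs_mul, abs_of_pos (kap_pos h1 h2)]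
      exact mul_le_mul (hB y) (kap_le hr h1.le) (kap_pos h1 h2).le hB0
    rw [integral_const_mul, ball_pot hr] at h1
    exact lt_of_le_of_lt (h1.trans (mul_le_mul_of_nonneg_left (kr_le hr) hB0)) hr2

lemma vol_ball (x : E3) {r : ℝ} (hr : 0 < r) :
    (volume : Measure E3).real (ball x r) = 4 * π / 3 * r ^ 3 := by
  rw [Measure.real, EuclideanSpace.volume_ball_fin_three, ENNReal.toReal_mul, ENNReal.toReal_pow,
    ENNReal.toReal_ofReal hr.le, ENNReal.toReal_ofReal (by have := pi_pos; positivity)]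
  ring

lemma defect (hg : Adm g) {r : ℝ} (hr : 0 < r) (x : E3) :
    ∫ z in ball x r, (N g x - N g z) =
      (4 * π / 3 * r ^ 3) * ∫ y in ball x r, g y * kap r ‖x - y‖ := by
  have hi : IntegrableOn (N g) (ball x r) :=
    (hg.N_cont.continuousOn.integrableOn_compact (isCompact_closedBall x r)).mono_set
      ball_subset_closedBall
  have hi0 : IntegrableOn (fun _ : E3 => N g x) (ball x r) :=
    integrableOn_const measure_ball_lt_top.ne
  rw [integral_sub hi0 hi, avg_N hg hr, setIntegral_const,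
    vol_ball x hr, smul_eq_mul, N_eq hg hr x]
  have := pi_pos
  field_simp
  ring

theorem max_principle (hg : Adm g) (c : ℝ) {ρ : ℝ} (hρ : 0 < ρ)
    (h1 : ∀ x, ‖x‖ = ρ → N g x + c ≤ 0)
    (h2 : ∀ᵐ y, ‖y‖ < ρ → 0 < N g y + c → g y ≤ 0) : ∀ x, ‖x‖ ≤ ρ → N g x + c ≤ 0 := by
  have hc := hg.N_cont
  obtain ⟨x1, hx1, hmax⟩ := (isCompact_closedBall (0 : E3) ρ).exists_isMaxOn
    ⟨0, mem_closedBall_self hρ.le⟩ hc.continuousOn
  have hK : IsCompact (closedBall (0 : E3) ρ ∩ {x | N g x = N g x1}) :=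
    (isCompact_closedBall _ _).inter_right (isClosed_eq hc continuous_const)
  obtain ⟨x0, ⟨hx0, hx0'⟩, hmax2⟩ := hK.exists_isMaxOn ⟨x1, hx1, rfl⟩ continuous_norm.continuousOn
  have hx0' : N g x0 = N g x1 := hx0'
  by_contra hcon
  push Not at hcon
  obtain ⟨x2, hx2, hx2'⟩ := hcon
  have hpos : 0 < N g x0 + c := by
    have : N g x2 ≤ N g x1 := hmax (mem_closedBall_zero_iff.2 hx2)
    linarith
  have hlt : ‖x0‖ < ρ := lt_of_le_of_ne (mem_closedBall_zero_iff.1 hx0)
    fun h => absurd (h1 x0 h) (not_le.2 hpos)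
  have hO : IsOpen {y : E3 | ‖y‖ < ρ ∧ 0 < N g y + c} :=
    (isOpen_lt continuous_norm continuous_const).inter
      (isOpen_lt continuous_const (hc.add continuous_const))
  obtain ⟨r, hr, hball⟩ := Metric.isOpen_iff.1 hO x0 ⟨hlt, hpos⟩
  have hle : ∀ z ∈ ball x0 r, 0 ≤ N g x0 - N g z := by
    intro z hz
    have : N g z ≤ N g x1 := hmax (mem_closedBall_zero_iff.2 (hball hz).1.le)
    linarith
  have hd : ∫ z in ball x0 r, (N g x0 - N g z) ≤ 0 := by
    rw [defect hg hr]
    refine mul_nonpos_of_nonneg_of_nonpos (by have := pi_pos; positivity)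
      (integral_nonpos_of_ae ?_)
    filter_upwards [ae_restrict_of_ae (ae_ne' x0), ae_restrict_mem measurableSet_ball,
      ae_restrict_of_ae h2] with y k1 k2 k3
    have k4 := hball k2
    rw [mem_ball', dist_eq_norm] at k2
    exact mul_nonpos_of_nonpos_of_nonneg (k3 k4.1 k4.2) (kap_pos k1 k2).le
  have hcc : Continuous (fun z => N g x0 - N g z) := continuous_const.sub hc
  have hz : ∫ z in ball x0 r, (N g x0 - N g z) = 0 :=
    le_antisymm hd (setIntegral_nonneg measurableSet_ball hle)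
  have hae := (setIntegral_eq_zero_iff_of_nonneg_ae
    (by filter_upwards [ae_restrict_mem measurableSet_ball] with y hy using hle y hy)
    ((hcc.continuousOn.integrableOn_compact (isCompact_closedBall x0 r)).mono_set
      ball_subset_closedBall)).1 hz
  have heq : EqOn (fun z => N g x0 - N g z) 0 (ball x0 r) :=
    Measure.eqOn_open_of_ae_eq hae isOpen_ball hcc.continuousOn continuousOn_const
  have hall : ∀ z ∈ ball x0 r, ‖z‖ ≤ ‖x0‖ := by
    intro z hz
    have k1 : N g x0 - N g z = 0 := heq hz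
    exact hmax2 ⟨mem_closedBall_zero_iff.2 (hball hz).1.le, show N g z = N g x1 by linarith⟩
  obtain ⟨v, hv⟩ : ∃ v : E3, ‖v‖ = r / 2 := exists_norm_eq E3 (by linarith)
  have k1 := hall (x0 + v) (by rw [mem_ball, dist_eq_norm, add_sub_cancel_left]; linarith)
  have k2 := hall (x0 - v) (by rw [mem_ball, dist_eq_norm, sub_sub_cancel_left, norm_neg]; linarith)
  have k3 := parallelogram_law_with_norm ℝ x0 v
  nlinarith [norm_nonneg (x0 + v), norm_nonneg (x0 - v), norm_nonneg x0]

theorem zero_of_const (hg : Adm g) {O : Set E3} (hO : IsOpen O) (h1 : ∀ y ∈ O, g y ≤ 0) {c : ℝ}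
    (h2 : ∀ y ∈ O, N g y = c) : ∀ᵐ y, y ∈ O → g y = 0 := by
  rw [ae_iff]
  refine measure_null_of_locally_null _ fun x hx => ?_
  have hxO : x ∈ O := by
    by_contra h
    exact hx fun h' => absurd h' h
  obtain ⟨r, hr, hball⟩ := Metric.isOpen_iff.1 hO x hxO
  have hd := defect hg hr x
  rw [setIntegral_congr_fun measurableSet_ball (g := fun _ => 0)
    (fun z hz => by simp [h2 x hxO, h2 z (hball hz)]), integral_zero] at hd
  have hz : ∫ y in ball x r, -(g y * kap r ‖x - y‖) = 0 := by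
    rw [integral_neg, neg_eq_zero]
    refine (mul_eq_zero.1 hd.symm).resolve_left ?_
    have := pi_pos
    positivity
  have hae := (setIntegral_eq_zero_iff_of_nonneg_ae (by
    filter_upwards [ae_restrict_of_ae (ae_ne' x), ae_restrict_mem measurableSet_ball] with y k1 k2
    have k4 := hball k2
    rw [mem_ball', dist_eq_norm] at k2
    exact neg_nonneg.2 (mul_nonpos_of_nonpos_of_nonneg (h1 y k4) (kap_pos k1 k2).le))
    (int_kap hg hr x).neg.integrableOn).1 hz
  have hae2 : ∀ᵐ y, y ∈ ball x r → g y = 0 := by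
    rw [← ae_restrict_iff' measurableSet_ball]
    filter_upwards [ae_restrict_of_ae (ae_ne' x), ae_restrict_mem measurableSet_ball, hae]
      with y k1 k2 k3
    rw [mem_ball', dist_eq_norm] at k2
    simp only [Pi.zero_apply, Pi.neg_apply, neg_eq_zero] at k3
    exact (mul_eq_zero.1 k3).resolve_right (kap_pos k1 k2).ne'
  refine ⟨_, inter_mem_nhdsWithin _ (ball_mem_nhds x hr), measure_mono_null ?_ (ae_iff.1 hae2)⟩
  rintro y ⟨k1, k2⟩ k3
  exact k1 fun _ => k3 k2

lemma N_symm (hf : Adm f) (hg : Adm g) : ∫ x, f x * N g x = ∫ y, g y * N f y := by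
  have hm : Measurable (fun q : E3 × E3 => f q.1 * (g q.2 * ‖q.1 - q.2‖⁻¹)) :=
    (hf.meas.comp measurable_fst).mul ((hg.meas.comp measurable_snd).mul (by fun_prop))
  unfold N
  simp only [← integral_const_mul]
  rw [integral_integral_swap]
  · congr 1; funext y; congr 1; funext x
    rw [norm_sub_rev]; ring
  · refine (integrable_prod_iff hm.aestronglyMeasurable).2
      ⟨Eventually.of_forall fun x => (hg.intN x).const_mul (f x), ?_⟩
    have e : (fun x => ∫ y, ‖f x * (g y * ‖x - y‖⁻¹)‖) =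
        fun x => |f x| * N (fun y => |g y|) x := by
      funext x
      unfold N
      rw [← integral_const_mul]
      congr 1; funext z
      rw [Real.norm_eq_abs, abs_mul, abs_mul, abs_inv, abs_norm]
    simp only at e ⊢
    rw [e]
    exact hf.abs.int_cont hg.abs.N_cont

lemma Adm.dil (hg : Adm g) (p : E3) {l : ℝ} (hl : 1 ≤ l) : Adm (fun y => g (p + l • (y - p))) := by
  obtain ⟨B, hB⟩ := hg.bdd
  obtain ⟨ρ, hρ, hs⟩ := hg.supp
  refine ⟨hg.meas.comp (by fun_prop), ⟨B, fun y => hB _⟩, ⟨ρ + 2 * ‖p‖, by positivity,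
    fun y hy => hs _ ?_⟩⟩
  have h1 := norm_sub_le (p + l • (y - p)) p
  rw [add_sub_cancel_left, norm_smul, Real.norm_eq_abs, abs_of_pos (by linarith)] at h1
  have h2 := norm_le_norm_sub_add y p
  nlinarith [norm_nonneg (y - p)]

lemma N_dil (g : E3 → ℝ) (p x : E3) {l : ℝ} (hl : 0 < l) :
    N (fun y => g (p + l • (y - p))) x = (l ^ 2)⁻¹ * N g (p + l • (x - p)) := by
  unfold N
  have h1 := integral_add_right_eq_self (μ := (volume : Measure E3))
    (fun y => g (p + l • (y - p)) * ‖x - y‖⁻¹) p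
  have h2 := Measure.integral_comp_smul_of_nonneg (volume : Measure E3)
    (fun z => g (p + z) * ‖p + l • (x - p) - (p + z)‖⁻¹) l (hR := hl.le)
  have h3 := integral_add_left_eq_self (μ := (volume : Measure E3))
    (fun z => g z * ‖p + l • (x - p) - z‖⁻¹) p
  rw [← h1, ← h3]
  have e : ∀ y : E3, g (p + l • (y + p - p)) * ‖x - (y + p)‖⁻¹ =
      l * (g (p + l • y) * ‖p + l • (x - p) - (p + l • y)‖⁻¹) := by
    intro y
    have : p + l • (x - p) - (p + l • y) = l • (x - (y + p)) := by module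
    rw [this, norm_smul, Real.norm_eq_abs, abs_of_pos hl, add_sub_cancel_right, mul_inv]
    field_simp
  simp only [e]
  rw [integral_const_mul, h2, finrank_euclideanSpace, Fintype.card_fin, smul_eq_mul]
  field_simp

end Pool.Agent.H27Z.NW
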