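import Mathlib
import Pool.Agent.H27Z.NW.Pot

set_option autoImplicit false

namespace Pool.Agent.H27Z.NW

open Set Filter Topology MeasureTheory Metric Real
open scoped ENNReal RealInnerProductSpace

/-- densities between zero and one supported in the ball of radius two -/
structure CC (f : E3 → ℝ) : Prop where
  meas : Measurable f
  bd : ∀ x, 0 ≤ f x ∧ f x ≤ 1
  supp : ∀ x, 2 ≤ ‖x‖ → f x = 0

lemma CC.abs_le {f : E3 → ℝ} (hf : CC f) (y : E3) : |f y| ≤ 1 := by
  rw [abs_of_nonneg (hf.bd y).1]; exact (hf.bd y).2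

lemma CC.adm {f : E3 → ℝ} (hf : CC f) : Adm f :=
  ⟨hf.meas, ⟨1, hf.abs_le⟩, ⟨2, two_pos, hf.supp⟩⟩

lemma CC.int_eq {f : E3 → ℝ} (hf : CC f) (h : E3 → ℝ) :
    ∫ y in ball (0 : E3) 2, f y * h y = ∫ y, f y * h y :=
  setIntegral_eq_integral_of_forall_compl_eq_zero fun y hy => by
    rw [mem_ball_zero_iff, not_lt] at hy
    rw [hf.supp y hy, zero_mul]

lemma weak_subseq (f : ℕ → E3 → ℝ) (hf : ∀ n, CC (f n)) :
    ∃ F, CC F ∧ ∃ φ : ℕ → ℕ, StrictMono φ ∧
      ∀ h : E3 → ℝ, MemLp h 2 (volume.restrict (ball (0 : E3) 2)) →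
        Tendsto (fun n => ∫ y, f (φ n) y * h y) atTop (𝓝 (∫ y, F y * h y)) := by
  obtain ⟨μ, hμ⟩ : ∃ μ : Measure E3, μ = volume.restrict (ball (0 : E3) 2) := ⟨_, rfl⟩
  have : IsFiniteMeasure μ := ⟨by rw [hμ, Measure.restrict_apply_univ]; exact measure_ball_lt_top⟩
  have hm : ∀ n, MemLp (f n) 2 μ := fun n =>
    MemLp.of_bound (hf n).meas.aestronglyMeasurable 1 (Eventually.of_forall (hf n).abs_le)
  obtain ⟨C, hC⟩ : ∃ C : ℝ, ∀ n, ‖(hm n).toLp‖ ≤ C := by
    refine ⟨_, fun n => Lp.norm_le_of_ae_bound zero_le_one ?_⟩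
    filter_upwards [(hm n).coeFn_toLp] with y hy
    rw [hy]; exact (hf n).abs_le y
  have h1 : ∀ k, StrongDual.toWeakDual (InnerProductSpace.toDual ℝ (Lp ℝ 2 μ) (hm k).toLp) ∈
      WeakDual.toStrongDual ⁻¹' closedBall (0 : StrongDual ℝ (Lp ℝ 2 μ)) C := by
    intro k
    simp only [mem_preimage, mem_closedBall, dist_zero_right]
    change ‖InnerProductSpace.toDual ℝ (Lp ℝ 2 μ) (hm k).toLp‖ ≤ C
    rw [LinearIsometryEquiv.norm_map]
    exact hC k
  have : Fact ((2 : ℝ≥0∞) ≠ ∞) := ⟨by norm_num⟩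
  have : SecondCountableTopology (Lp ℝ 2 μ) := inferInstance
  obtain ⟨ℓ, -, φ, hφ, hlim⟩ := WeakDual.isSeqCompact_closedBall ℝ (Lp ℝ 2 μ) 0 C h1
  obtain ⟨G, hG⟩ : ∃ G : Lp ℝ 2 μ,
    G = (InnerProductSpace.toDual ℝ (Lp ℝ 2 μ)).symm (WeakDual.toStrongDual ℓ) := ⟨_, rfl⟩
  have hw : ∀ h : E3 → ℝ, MemLp h 2 μ →
      Tendsto (fun n => ∫ y, f (φ n) y * h y ∂μ) atTop (𝓝 (∫ y, G y * h y ∂μ)) := by
    intro h hh
    have h2 : Tendsto (fun k => ⟪(hm (φ k)).toLp, hh.toLp⟫) atTop (𝓝 ⟪G, hh.toLp⟫) := by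
      have h2 := ((WeakDual.eval_continuous hh.toLp).tendsto ℓ).comp hlim
      rw [hG, InnerProductSpace.toDual_symm_apply]
      exact h2
    have e1 : ∀ k, ⟪(hm k).toLp, hh.toLp⟫ = ∫ y, f k y * h y ∂μ := by
      intro k
      rw [L2.inner_def]
      refine integral_congr_ae ?_
      filter_upwards [(hm k).coeFn_toLp, hh.coeFn_toLp] with y a1 a2
      rw [a1, a2]; simp [mul_comm]
    have e2 : ⟪G, hh.toLp⟫ = ∫ y, G y * h y ∂μ := by
      rw [L2.inner_def]
      refine integral_congr_ae ?_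
      filter_upwards [hh.coeFn_toLp] with y a2
      rw [a2]; simp [mul_comm]
    simpa only [e1, e2] using h2
  have hGi : Integrable G μ := (Lp.memLp G).integrable one_le_two
  have hS : ∀ S, MeasurableSet S →
      Tendsto (fun n => ∫ y in S, f (φ n) y ∂μ) atTop (𝓝 (∫ y in S, G y ∂μ)) := by
    intro S hS
    have := hw (S.indicator fun _ => 1) ((memLp_const (1 : ℝ)).indicator hS)
    have e : ∀ u : E3 → ℝ, ∫ y, u y * S.indicator (fun _ => (1 : ℝ)) y ∂μ = ∫ y in S, u y ∂μ := by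
      intro u
      rw [← integral_indicator hS]
      congr 1; funext y
      by_cases hy : y ∈ S <;> simp [hy]
    simpa only [e] using this
  have g0 : 0 ≤ᵐ[μ] G := ae_nonneg_of_forall_setIntegral_nonneg hGi fun S hS' _ =>
    ge_of_tendsto' (hS S hS') fun n => integral_nonneg fun y => ((hf _).bd y).1
  have g1 : 0 ≤ᵐ[μ] fun y => 1 - G y := by
    refine ae_nonneg_of_forall_setIntegral_nonneg ((integrable_const 1).sub hGi) fun S hS' _ => ?_
    rw [integral_sub (integrable_const 1) hGi.integrableOn, sub_nonneg]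
    refine le_of_tendsto' (hS S hS') fun n => ?_
    exact integral_mono ((hm _).integrable one_le_two).integrableOn (integrable_const 1)
      fun y => ((hf _).bd y).2
  have hGm : Measurable G := (Lp.stronglyMeasurable G).measurable
  have hF : CC ((ball (0 : E3) 2).indicator fun y => max 0 (min 1 (G y))) := by
    refine ⟨Measurable.indicator (by fun_prop) measurableSet_ball, fun x => ?_, fun x hx => ?_⟩
    · by_cases hx : x ∈ ball (0 : E3) 2
      · rw [indicator_of_mem hx]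
        exact ⟨le_max_left _ _, max_le zero_le_one (min_le_left _ _)⟩
      · rw [indicator_of_notMem hx]; exact ⟨le_rfl, zero_le_one⟩
    · exact indicator_of_notMem (fun h => absurd (mem_ball_zero_iff.1 h) (not_lt.2 hx)) _
  refine ⟨_, hF, φ, hφ, fun h hh => ?_⟩
  have := hw h (hμ ▸ hh)
  rw [← hF.int_eq]
  simp only [← (hf _).int_eq]
  rw [← hμ]
  convert this using 2
  refine integral_congr_ae ?_
  have hb : ∀ᵐ y ∂μ, y ∈ ball (0 : E3) 2 := hμ ▸ ae_restrict_mem measurableSet_ball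
  filter_upwards [g0, g1, hb] with y a1 a2 a3
  simp only [Pi.zero_apply, sub_nonneg] at a1 a2
  rw [indicator_of_mem a3, min_eq_right a2, max_eq_right a1]

lemma memLp_cont {h : E3 → ℝ} (hh : Continuous h) :
    MemLp h 2 (volume.restrict (ball (0 : E3) 2)) := by
  have : IsFiniteMeasure ((volume : Measure E3).restrict (ball (0 : E3) 2)) :=
    ⟨by rw [Measure.restrict_apply_univ]; exact measure_ball_lt_top⟩
  obtain ⟨C, hC⟩ := (isCompact_closedBall (0 : E3) 2).exists_bound_of_continuousOn hh.continuousOn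
  refine MemLp.of_bound hh.aestronglyMeasurable C ?_
  filter_upwards [ae_restrict_mem measurableSet_ball] with y hy using
    hC y (ball_subset_closedBall hy)

lemma memLp_ker (x : E3) : MemLp (fun y => ‖x - y‖⁻¹) 2 (volume.restrict (ball (0 : E3) 2)) :=
  (memLp_two_iff_integrable_sq (Measurable.aestronglyMeasurable (by fun_prop))).2 (int_inv_sq x 2)

/-- the energy -/
noncomputable def J (ψ f : E3 → ℝ) : ℝ := 1 / 2 * (∫ y, f y * N f y) + ∫ y, f y * ψ y

lemma CC.N_le {f : E3 → ℝ} (hf : CC f) (x : E3) : |N f x| ≤ 1 * (2 * π * 2 ^ 2) :=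
  abs_N_le two_pos hf.abs_le hf.supp x

lemma exists_minimizer {ψ : E3 → ℝ} (hψ : Continuous ψ) :
    ∃ f, CC f ∧ ∀ g, CC g → J ψ f ≤ J ψ g := by
  have hne : (J ψ '' {f | CC f}).Nonempty :=
    ⟨_, fun _ => 0, ⟨measurable_const, fun _ => ⟨le_rfl, zero_le_one⟩, fun _ _ => rfl⟩, rfl⟩
  have hi : IntegrableOn ψ (ball (0 : E3) 2) :=
    (hψ.continuousOn.integrableOn_compact (isCompact_closedBall 0 2)).mono_set
      ball_subset_closedBall
  have hbdd : BddBelow (J ψ '' {f | CC f}) := by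
    refine ⟨-∫ y in ball (0 : E3) 2, ‖ψ y‖, ?_⟩
    rintro _ ⟨f, hf, rfl⟩
    have hf : CC f := hf
    have a1 : 0 ≤ ∫ y, f y * N f y := integral_nonneg fun y => mul_nonneg (hf.bd y).1
      (integral_nonneg fun z => mul_nonneg (hf.bd z).1 (by positivity))
    have a2 : ‖∫ y in ball (0 : E3) 2, f y * ψ y‖ ≤ ∫ y in ball (0 : E3) 2, ‖ψ y‖ := by
      refine norm_integral_le_of_norm_le hi.norm (Eventually.of_forall fun y => ?_)
      rw [norm_mul]
      exact mul_le_of_le_one_left (norm_nonneg _) (hf.abs_le y)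
    rw [hf.int_eq, Real.norm_eq_abs] at a2
    unfold J
    linarith [(abs_le.1 a2).1]
  obtain ⟨u, -, hu, hu'⟩ := exists_seq_tendsto_sInf hne hbdd
  choose f hf hfu using hu'
  obtain ⟨F, hF, φ, hφ, hw⟩ := weak_subseq f hf
  refine ⟨F, hF, fun g hg => ?_⟩
  have hN : ∀ x, Tendsto (fun n => N (f (φ n)) x) atTop (𝓝 (N F x)) := fun x => hw _ (memLp_ker x)
  have t1 : Tendsto (fun n => ∫ y in ball (0 : E3) 2, f (φ n) y * (N (f (φ n)) y - N F y)) atTop
      (𝓝 (∫ y in ball (0 : E3) 2, (0 : ℝ))) := by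
    refine tendsto_integral_of_dominated_convergence (fun _ => 2 * (1 * (2 * π * 2 ^ 2)))
      (fun n => ((hf _).meas.aestronglyMeasurable.mul
        ((hf _).adm.N_cont.sub hF.adm.N_cont).aestronglyMeasurable))
      (integrableOn_const measure_ball_lt_top.ne) (fun n => Eventually.of_forall fun y => ?_)
      (Eventually.of_forall fun y => ?_)
    · rw [norm_mul]
      refine (mul_le_of_le_one_left (norm_nonneg _) ((hf _).abs_le y)).trans ?_
      refine (abs_sub _ _).trans ?_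
      linarith [CC.N_le (hf (φ n)) y, hF.N_le y]
    · refine squeeze_zero_norm (a := fun n => ‖N (f (φ n)) y - N F y‖) (fun n => ?_) ?_
      · rw [norm_mul]
        exact mul_le_of_le_one_left (norm_nonneg _) ((hf _).abs_le y)
      · exact tendsto_iff_norm_sub_tendsto_zero.1 (hN y)
  rw [integral_zero] at t1
  have t2 := hw _ (memLp_cont hF.adm.N_cont)
  have t3 := hw _ (memLp_cont hψ)
  have t4 := ((t1.add t2).const_mul (1 / 2)).add t3
  rw [zero_add] at t4
  have t5 : Tendsto (fun n => J ψ (f (φ n))) atTop (𝓝 (J ψ F)) := by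
    refine t4.congr fun n => ?_
    unfold J
    have i1 : Integrable (fun y => f (φ n) y * (N (f (φ n)) y - N F y)) :=
      (hf _).adm.int_cont ((hf _).adm.N_cont.sub hF.adm.N_cont)
    rw [CC.int_eq (hf _), ← integral_add i1 ((hf _).adm.int_cont hF.adm.N_cont)]
    congr 3
    funext y
    ring
  have t6 : Tendsto (fun n => J ψ (f (φ n))) atTop (𝓝 (sInf (J ψ '' {f | CC f}))) := by
    simp only [hfu]
    exact hu.comp hφ.tendsto_atTop
  rw [tendsto_nhds_unique t5 t6]
  exact csInf_le hbdd ⟨g, hg, rfl⟩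

lemma euler {ψ f : E3 → ℝ} (hψ : Continuous ψ) (hf : CC f) (hmin : ∀ g, CC g → J ψ f ≤ J ψ g)
    {g : E3 → ℝ} (hg : CC g) : 0 ≤ ∫ y, (g y - f y) * (N f y + ψ y) := by
  have hd : Adm (fun y => g y - f y) := hg.adm.sub hf.adm
  obtain ⟨d, hdd⟩ : ∃ d : E3 → ℝ, d = fun y => g y - f y := ⟨_, rfl⟩
  rw [← hdd] at hd
  have key : ∀ t : ℝ, 0 < t → t ≤ 1 →
      0 ≤ (∫ y, d y * (N f y + ψ y)) + t * (1 / 2 * ∫ y, d y * N d y) := by
    intro t ht ht1
    have hc : CC (fun y => f y + t * d y) := by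
      refine ⟨hf.meas.add (hd.meas.const_mul t), fun y => ?_, fun y hy => ?_⟩
      · rw [hdd]
        have a1 := hf.bd y
        have a2 := hg.bd y
        constructor <;> nlinarith [a1.1, a1.2, a2.1, a2.2]
      · rw [hdd]; simp [hf.supp y hy, hg.supp y hy]
    have h1 := hmin _ hc
    have i1 := hf.adm.int_cont hf.adm.N_cont
    have i2 := hf.adm.int_cont hd.N_cont
    have i3 := hd.int_cont hf.adm.N_cont
    have i4 := hd.int_cont hd.N_cont
    have i5 := hf.adm.int_cont hψ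
    have i6 := hd.int_cont hψ
    have e1 : ∫ y, (f y + t * d y) * N (fun y => f y + t * d y) y =
        (∫ y, f y * N f y) + t * (∫ y, f y * N d y) + t * (∫ y, d y * N f y) +
          t ^ 2 * ∫ y, d y * N d y := by
      have j1 : Integrable (fun y => f y * N f y + t * (f y * N d y)) := i1.add (i2.const_mul t)
      have j2 : Integrable (fun y => f y * N f y + t * (f y * N d y) + t * (d y * N f y)) :=
        j1.add (i3.const_mul t)
      rw [← integral_const_mul, ← integral_const_mul, ← integral_const_mul,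
        ← integral_add i1 (i2.const_mul t), ← integral_add j1 (i3.const_mul t),
        ← integral_add j2 (i4.const_mul _)]
      congr 1; funext y
      rw [N_add hf.adm (hd.cmul t), N_cmul]
      ring
    have e2 : ∫ y, (f y + t * d y) * ψ y = (∫ y, f y * ψ y) + t * ∫ y, d y * ψ y := by
      rw [← integral_const_mul, ← integral_add i5 (i6.const_mul t)]
      congr 1; funext y; ring
    have e3 : ∫ y, d y * (N f y + ψ y) = (∫ y, d y * N f y) + ∫ y, d y * ψ y := by
      rw [← integral_add i3 i6]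
      congr 1; funext y; ring
    unfold J at h1
    rw [e1, e2, N_symm hf.adm hd] at h1
    rw [e3]
    refine nonneg_of_mul_nonneg_right (a := t) ?_ ht
    nlinarith
  have hl : Tendsto (fun t : ℝ => (∫ y, d y * (N f y + ψ y)) + t * (1 / 2 * ∫ y, d y * N d y))
      (𝓝[>] 0) (𝓝 ((∫ y, d y * (N f y + ψ y)) + 0 * (1 / 2 * ∫ y, d y * N d y))) :=
    (Continuous.tendsto (by fun_prop) 0).mono_left nhdsWithin_le_nhds
  have := ge_of_tendsto hl (by
    filter_upwards [Ioc_mem_nhdsGT one_pos] with t ht using key t ht.1 ht.2)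
  rw [zero_mul, add_zero, hdd] at this
  exact this

theorem exists_obstacle {ψ : E3 → ℝ} (hψ : Continuous ψ) :
    ∃ f, CC f ∧ (∀ᵐ y, 0 < N f y + ψ y → f y = 0) ∧
      (∀ᵐ y, ‖y‖ < 2 → N f y + ψ y < 0 → f y = 1) := by
  obtain ⟨f, hf, hmin⟩ := exists_minimizer hψ
  have hw : Continuous (fun y => N f y + ψ y) := hf.adm.N_cont.add hψ
  obtain ⟨S, hS⟩ : ∃ S : Set E3, S = {y | ‖y‖ < 2 ∧ N f y + ψ y < 0} := ⟨_, rfl⟩
  have hSo : IsOpen S := hS ▸ (isOpen_lt continuous_norm continuous_const).inter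
    (isOpen_lt hw continuous_const)
  have hg : CC (S.indicator fun _ => (1 : ℝ)) := by
    refine ⟨measurable_const.indicator hSo.measurableSet, fun x => ?_, fun x hx => ?_⟩
    · by_cases hx : x ∈ S <;> simp [hx]
    · exact indicator_of_notMem (fun h => absurd (hS ▸ h).1 (not_lt.2 hx)) _
  have h1 := euler hψ hf hmin hg
  have hneg : ∀ y, 0 ≤ -((S.indicator (fun _ => (1 : ℝ)) y - f y) * (N f y + ψ y)) := by
    intro y
    rw [neg_nonneg]
    by_cases hy : y ∈ S
    · rw [indicator_of_mem hy]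
      exact mul_nonpos_of_nonneg_of_nonpos (sub_nonneg.2 (hf.bd y).2) (hS ▸ hy).2.le
    · rw [indicator_of_notMem hy]
      by_cases h2 : ‖y‖ < 2
      · have h3 : 0 ≤ N f y + ψ y := not_lt.1 fun h => hy (hS ▸ ⟨h2, h⟩)
        exact mul_nonpos_of_nonpos_of_nonneg (by linarith [(hf.bd y).1]) h3
      · rw [hf.supp y (not_lt.1 h2)]; simp
  have hz := (integral_eq_zero_iff_of_nonneg hneg ((hg.adm.sub hf.adm).int_cont hw).neg).1
    (le_antisymm (by rw [integral_neg]; linarith) (integral_nonneg hneg))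
  refine ⟨f, hf, ?_, ?_⟩
  · filter_upwards [hz] with y hy h2
    simp only [Pi.zero_apply, neg_eq_zero] at hy
    have h3 := (mul_eq_zero.1 hy).resolve_right h2.ne'
    rw [indicator_of_notMem (fun h => absurd (hS ▸ h).2 (not_lt.2 h2.le))] at h3
    linarith
  · filter_upwards [hz] with y hy h2 h3
    simp only [Pi.zero_apply, neg_eq_zero] at hy
    have h4 := (mul_eq_zero.1 hy).resolve_right h3.ne
    rw [indicator_of_mem (hS ▸ ⟨h2, h3⟩)] at h4
    linarith

end Pool.Agent.H27Z.NW
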