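import Mathlib
import Pool.Agent.H27Z.NW.Ball

set_option autoImplicit false

namespace Pool.Agent.H27Z.NW

open Set Filter Topology MeasureTheory Metric Real
open scoped Pointwise

lemma boot {K : Set E3} (hK : IsClosed K) {p : E3}
    (h : ∀ x ∈ K, ∀ s ∈ Icc (1 / 2 : ℝ) 1, p + s • (x - p) ∈ K) :
    ∀ x ∈ K, ∀ s ∈ Icc (0 : ℝ) 1, p + s • (x - p) ∈ K := by
  have h1 : ∀ n : ℕ, ∀ x ∈ K, ∀ s ∈ Icc ((1 / 2 : ℝ) ^ n) 1, p + s • (x - p) ∈ K := by
    intro n
    induction n with
    | zero =>
      intro x hx s hs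
      exact h x hx s ⟨by linarith [hs.1, pow_zero (1 / 2 : ℝ)], hs.2⟩
    | succ n ih =>
      intro x hx s hs
      rcases le_or_gt (1 / 2) s with h2 | h2
      · exact h x hx s ⟨h2, hs.2⟩
      · have h3 := ih x hx (2 * s) ⟨by have := hs.1; rw [pow_succ] at this; linarith, by linarith⟩
        have h4 := h _ h3 (1 / 2) ⟨le_rfl, by norm_num⟩
        convert h4 using 2
        rw [add_sub_cancel_left, smul_smul]
        congr 1
        ring
  have h2 : ∀ x ∈ K, ∀ s ∈ Ioc (0 : ℝ) 1, p + s • (x - p) ∈ K := by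
    intro x hx s hs
    obtain ⟨n, hn⟩ := exists_pow_lt_of_lt_one hs.1 (show (1 / 2 : ℝ) < 1 by norm_num)
    exact h1 n x hx s ⟨hn.le, hs.2⟩
  intro x hx s hs
  rcases hs.1.eq_or_lt with h3 | h3
  · subst h3
    have hc : Continuous (fun s : ℝ => p + s • (x - p)) := by fun_prop
    refine hK.mem_of_tendsto ((hc.tendsto 0).mono_left (nhdsWithin_le_nhds (s := Ioi 0))) ?_
    filter_upwards [Ioc_mem_nhdsGT one_pos] with t ht using h2 x hx t ht
  · exact h2 x hx s ⟨h3, hs.2⟩

theorem star {K : Set E3} (hK : IsCompact K) {ε : ℝ} (hε : 0 < ε) (hne : K.Nonempty)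
    (hs : ∀ p : E3, ‖p‖ < ε → ∀ x ∈ K, ∀ s ∈ Icc (0 : ℝ) 1, p + s • (x - p) ∈ K) :
    IsConnected (interior K) ∧ closure (interior K) = K ∧
      frontier (interior K) = K \ interior K ∧
      Nonempty (frontier (interior K) ≃ₜ sphere (0 : E3) 1) ∧ volume (K \ interior K) = 0 := by
  have hint : ∀ x ∈ K, ∀ s ∈ Ico (0 : ℝ) 1, s • x ∈ interior K := by
    intro x hx s hs'
    have h1 : 0 < 1 - s := by linarith [hs'.2]
    refine mem_interior.2 ⟨ball (s • x) ((1 - s) * ε), fun y hy => ?_, isOpen_ball,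
      mem_ball_self (by positivity)⟩
    have h2 := hs ((1 - s)⁻¹ • (y - s • x)) (by
      rw [norm_smul, Real.norm_eq_abs, abs_of_pos (inv_pos.2 h1), inv_mul_lt_iff₀ h1]
      rwa [mem_ball, dist_eq_norm] at hy) x hx s ⟨hs'.1, hs'.2.le⟩
    convert h2 using 1
    have h3 : (1 - s) * (1 - s)⁻¹ = 1 := mul_inv_cancel₀ h1.ne'
    calc y = s • x + ((1 - s) * (1 - s)⁻¹) • (y - s • x) := by rw [h3]; module
      _ = _ := by module
  have h0 : (0 : E3) ∈ interior K := by
    obtain ⟨x, hx⟩ := hne
    simpa using hint x hx 0 ⟨le_rfl, one_pos⟩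
  have hcl : closure (interior K) = K := by
    refine subset_antisymm (closure_minimal interior_subset hK.isClosed) fun x hx => ?_
    have hc : Continuous (fun s : ℝ => s • x) := by fun_prop
    have h1 := (hc.tendsto 1).mono_left (nhdsWithin_le_nhds (s := Iio 1))
    rw [one_smul] at h1
    refine mem_closure_of_tendsto h1 ?_
    filter_upwards [Ico_mem_nhdsLT one_pos] with t ht using hint x hx t ht
  have hfr : frontier (interior K) = K \ interior K := by
    rw [frontier, hcl, interior_interior]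
  refine ⟨?_, hcl, hfr, ?_, ?_⟩
  · refine (StarConvex.isPathConnected (a := 0) ?_ h0).isConnected
    intro y hy a b ha hb hab
    rw [smul_zero, zero_add]
    rcases ha.eq_or_lt with h | h
    · rw [show b = 1 by linarith, one_smul]; exact hy
    · exact hint y (interior_subset hy) b ⟨hb, by linarith⟩
  · rw [hfr]
    have : CompactSpace (K \ interior K : Set E3) :=
      isCompact_iff_compactSpace.1 (hK.diff isOpen_interior)
    have hz : ∀ x : (K \ interior K : Set E3), 0 < ‖(x : E3)‖ :=
      fun x => norm_pos_iff.2 fun h => x.2.2 (h ▸ h0)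
    let F : (K \ interior K : Set E3) → sphere (0 : E3) 1 := fun x =>
      ⟨‖(x : E3)‖⁻¹ • (x : E3), by
        rw [mem_sphere_zero_iff_norm, norm_smul, norm_inv, norm_norm, inv_mul_cancel₀ (hz x).ne']⟩
    have hFc : Continuous F := by
      refine Continuous.subtype_mk ?_ _
      exact (Continuous.inv₀ (by fun_prop) fun x => (hz x).ne').smul continuous_subtype_val
    have hle : ∀ x y : (K \ interior K : Set E3), F x = F y → ‖(y : E3)‖ ≤ ‖(x : E3)‖ := by
      intro x y h
      by_contra hc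
      push Not at hc
      have h1 : ‖(x : E3)‖⁻¹ • (x : E3) = ‖(y : E3)‖⁻¹ • (y : E3) := congrArg Subtype.val h
      have h2 : (x : E3) = (‖(x : E3)‖ / ‖(y : E3)‖) • (y : E3) := by
        rw [div_eq_mul_inv, ← smul_smul, ← h1, smul_smul, mul_inv_cancel₀ (hz x).ne', one_smul]
      refine x.2.2 ?_
      rw [h2]
      exact hint y y.2.1 _ ⟨by positivity, (div_lt_one (hz y)).2 hc⟩
    have hinj : Function.Injective F := by
      intro x y h
      have h1 : ‖(x : E3)‖⁻¹ • (x : E3) = ‖(y : E3)‖⁻¹ • (y : E3) := congrArg Subtype.val h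
      rw [le_antisymm (hle y x h.symm) (hle x y h)] at h1
      exact Subtype.ext (smul_right_injective E3 (inv_ne_zero (hz y).ne') h1)
    have hsurj : Function.Surjective F := by
      intro ω
      have hω : ‖(ω : E3)‖ = 1 := mem_sphere_zero_iff_norm.1 ω.2
      obtain ⟨R, hR⟩ := hK.isBounded.subset_closedBall (0 : E3)
      have hc : Continuous (fun t : ℝ => t • (ω : E3)) := by fun_prop
      have hT : IsCompact (Icc (0 : ℝ) R ∩ (fun t : ℝ => t • (ω : E3)) ⁻¹' K) :=
        isCompact_Icc.inter_right (hK.isClosed.preimage hc)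
      have hR0 : 0 ≤ R := by simpa using hR (interior_subset h0)
      obtain ⟨t, ⟨ht1, ht2⟩, ht3⟩ := hT.exists_isGreatest
        ⟨0, ⟨le_rfl, hR0⟩, by simpa using interior_subset h0⟩
      have hni : t • (ω : E3) ∉ interior K := by
        intro h
        have h1 : ∀ᶠ u in 𝓝[>] t, u • (ω : E3) ∈ interior K :=
          ((hc.tendsto t).mono_left nhdsWithin_le_nhds).eventually (isOpen_interior.mem_nhds h)
        obtain ⟨u, h2, h3⟩ := (h1.and self_mem_nhdsWithin).exists
        have h3 : t < u := h3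
        have h4 := hR (interior_subset h2)
        rw [mem_closedBall_zero_iff, norm_smul, hω, mul_one, Real.norm_eq_abs] at h4
        have h5 : u • (ω : E3) ∈ K := interior_subset h2
        have := ht3 ⟨⟨by linarith [ht1.1], (le_abs_self u).trans h4⟩, h5⟩
        linarith
      have ht0 : 0 < t := by
        refine lt_of_le_of_ne ht1.1 fun h => hni ?_
        rw [← h, zero_smul]; exact h0
      refine ⟨⟨t • (ω : E3), ht2, hni⟩, Subtype.ext ?_⟩
      change ‖t • (ω : E3)‖⁻¹ • (t • (ω : E3)) = ω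
      rw [norm_smul, hω, mul_one, Real.norm_eq_abs, abs_of_pos ht0, smul_smul,
        inv_mul_cancel₀ ht0.ne', one_smul]
    exact ⟨Continuous.homeoOfEquivCompactToT2 (f := Equiv.ofBijective F ⟨hinj, hsurj⟩) hFc⟩
  · have hfin : volume K ≠ ⊤ := hK.measure_lt_top.ne
    have hfin2 : volume (interior K) ≠ ⊤ := ne_top_of_le_ne_top hfin (measure_mono interior_subset)
    rw [measure_sdiff interior_subset isOpen_interior.measurableSet.nullMeasurableSet hfin2]
    refine tsub_eq_zero_of_le ((ENNReal.toReal_le_toReal hfin hfin2).1 ?_)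
    have hc : Continuous (fun s : ℝ => s ^ 3 * (volume K).toReal) := by fun_prop
    have h1 := (hc.tendsto 1).mono_left (nhdsWithin_le_nhds (s := Iio 1))
    rw [one_pow, one_mul] at h1
    refine le_of_tendsto h1 ?_
    filter_upwards [Ico_mem_nhdsLT one_pos] with s hs'
    have h2 : s • K ⊆ interior K := by
      rintro _ ⟨x, hx, rfl⟩
      exact hint x hx s hs'
    have h3 := ENNReal.toReal_mono hfin2 (measure_mono h2)
    rw [Measure.addHaar_smul_of_nonneg volume hs'.1, ENNReal.toReal_mul,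
      ENNReal.toReal_ofReal (pow_nonneg hs'.1 _), finrank_euclideanSpace, Fintype.card_fin] at h3
    exact h3

end Pool.Agent.H27Z.NW
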