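import Mathlib
import Pool.Agent.H27Z.NW.Min
import Pool.Agent.H27Z.NW.Star

set_option autoImplicit false

namespace Pool.Agent.H27Z.NW

open Set Filter Topology MeasureTheory Metric Real

lemma far {h : E3 → ℝ} (hh : Adm h) (h0 : ∀ y, 0 ≤ h y) {M d : ℝ} (hM : ∫ y, h y ≤ M) (hd : 0 < d)
    {x x' : E3} (hx : ∀ y, h y ≠ 0 → d ≤ ‖x - y‖ ∧ d ≤ ‖x' - y‖) :
    N h x ≤ M * d⁻¹ ∧ N h x - N h x' ≤ M * (‖x - x'‖ * (d ^ 2)⁻¹) := by
  constructor
  · refine le_trans (integral_mono (hh.intN x) (hh.int.mul_const d⁻¹) fun y => ?_) ?_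
    · by_cases hy : h y = 0
      · simp [hy]
      · exact mul_le_mul_of_nonneg_left (inv_anti₀ hd (hx y hy).1) (h0 y)
    · rw [integral_mul_const]
      exact mul_le_mul_of_nonneg_right hM (by positivity)
  · unfold N
    rw [← integral_sub (hh.intN x) (hh.intN x')]
    refine le_trans (integral_mono ((hh.intN x).sub (hh.intN x'))
      (hh.int.mul_const (‖x - x'‖ * (d ^ 2)⁻¹)) fun y => ?_) ?_
    · by_cases hy : h y = 0
      · simp [hy]
      · simp only [← mul_sub]
        refine mul_le_mul_of_nonneg_left ?_ (h0 y)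
        obtain ⟨a1, a2⟩ := hx y hy
        have b1 : 0 < ‖x - y‖ := by linarith
        have b2 : 0 < ‖x' - y‖ := by linarith
        have b3 : ‖x' - y‖ - ‖x - y‖ ≤ ‖x - x'‖ := by
          have := norm_sub_norm_le (x' - y) (x - y)
          rwa [sub_sub_sub_cancel_right, norm_sub_rev x' x] at this
        rw [inv_sub_inv b1.ne' b2.ne', div_eq_mul_inv]
        refine mul_le_mul b3 (inv_anti₀ (by positivity) ?_) (by positivity) (norm_nonneg _)
        rw [sq]
        exact mul_le_mul a1 a2 hd.le b1.le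
    · rw [integral_mul_const]
      exact mul_le_mul_of_nonneg_right hM (by positivity)

/-- the truncated ball -/
def KK : Set E3 := closedBall 0 1000 ∩ {x | x 0 ≤ 1000 - 1 / 8000}

/-- the cap -/
def AA : Set E3 := ball 0 1000 \ KK

lemma KK_compact : IsCompact KK :=
  (isCompact_closedBall _ _).inter_right (isClosed_le (by fun_prop) continuous_const)

lemma AA_meas : MeasurableSet AA := measurableSet_ball.diff KK_compact.measurableSet

lemma AA_sub : AA ⊆ ball (EuclideanSpace.single 0 1000) 1 := by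
  rintro x ⟨h1, h2⟩
  have h3 : 1000 - 1 / 8000 < x 0 := not_le.1 fun h => h2 ⟨ball_subset_closedBall h1, h⟩
  rw [mem_ball_zero_iff] at h1
  rw [mem_ball, dist_eq_norm, ← sq_lt_one_iff₀ (norm_nonneg _), norm_sub_sq_real,
    EuclideanSpace.inner_single_right]
  have h4 : ‖x‖ ^ 2 < 1000 ^ 2 := by gcongr
  simp
  linarith

lemma AA_norm {y : E3} (hy : y ∈ AA) : 999 ≤ ‖y‖ := by
  have h1 := AA_sub hy
  rw [mem_ball', dist_eq_norm] at h1
  have h2 := norm_le_norm_sub_add (EuclideanSpace.single (0 : Fin 3) (1000 : ℝ) : E3) y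
  simp only [PiLp.norm_single, norm_ofNat] at h2
  linarith

lemma ball_KK : ball (0 : E3) 2 ⊆ KK := by
  intro x hx
  rw [mem_ball_zero_iff] at hx
  refine ⟨mem_closedBall_zero_iff.2 (by linarith), ?_⟩
  have := (le_abs_self _).trans (PiLp.norm_apply_le x 0)
  change x 0 ≤ _
  linarith

theorem cavity : ∃ K : Set E3, IsCompact K ∧ K.Nonempty ∧ K ⊆ ball 0 2 ∧
    (∀ p : E3, ‖p‖ < 1 / 1000 → ∀ x ∈ K, ∀ s ∈ Icc (0 : ℝ) 1, p + s • (x - p) ∈ K) ∧
    (volume (K \ interior K) = 0 → volume (KK \ interior KK) = 0 →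
      ∃ c : ℝ, ∀ P ∈ interior K, ∫ M in interior KK \ K, (dist P M)⁻¹ = c) := by
  have hπ := pi_pos
  have hπ3 := pi_gt_three
  have hπ4 := pi_lt_d2
  have hA : Adm (AA.indicator fun _ => (1 : ℝ)) :=
    adm_ind AA_meas (ρ := 1000) (by norm_num) sdiff_subset
  have hB : Adm ((ball (0 : E3) 1000).indicator fun _ => (1 : ℝ)) :=
    adm_ind measurableSet_ball (ρ := 1000) (by norm_num) subset_rfl
  obtain ⟨a, ha⟩ : ∃ a : E3 → ℝ, a = AA.indicator fun _ => (1 : ℝ) := ⟨_, rfl⟩
  obtain ⟨b, hb⟩ : ∃ b : E3 → ℝ, b = (ball (0 : E3) 1000).indicator fun _ => (1 : ℝ) := ⟨_, rfl⟩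
  rw [← ha] at hA
  rw [← hb] at hB
  have ha0 : ∀ y, 0 ≤ a y := fun y => by rw [ha]; exact indicator_nonneg (fun _ _ => zero_le_one) y
  have ha1 : ∀ y, ‖y‖ < 999 → a y = 0 := fun y hy => by
    rw [ha]; exact indicator_of_notMem (fun h => absurd (AA_norm h) (not_le.2 hy)) _
  have hb1 : ∀ y, b y ≤ 1 := fun y => by
    rw [hb]; by_cases hy : y ∈ ball (0 : E3) 1000 <;> simp [hy]
  have hb2 : ∀ y, ‖y‖ < 999 → b y = 1 := fun y hy => by
    rw [hb]; exact indicator_of_mem (mem_ball_zero_iff.2 (by linarith)) _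
  have hNb : ∀ x : E3, ‖x‖ ≤ 1000 → N b x = 2 * π * 1000 ^ 2 - 2 * π / 3 * ‖x‖ ^ 2 := by
    intro x hx
    rw [hb, N_ind measurableSet_ball, ball_pot (by norm_num), sub_zero, kr, if_pos hx]
  obtain ⟨f, hf, hf0, hf1⟩ := exists_obstacle (ψ := fun x => N a x + 2 * π / 3 * ‖x‖ ^ 2 - 2 * π)
    ((hA.N_cont.add (by fun_prop)).sub continuous_const)
  have hh : Adm (fun y => f y + a y) := hf.adm.add hA
  obtain ⟨h, hhe⟩ : ∃ h : E3 → ℝ, h = fun y => f y + a y := ⟨_, rfl⟩
  rw [← hhe] at hh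
  have hh0 : ∀ y, 0 ≤ h y := fun y => by rw [hhe]; exact add_nonneg (hf.bd y).1 (ha0 y)
  have hG : Adm (fun y => h y - b y) := hh.sub hB
  obtain ⟨G, hGe⟩ : ∃ G : E3 → ℝ, G = fun y => h y - b y := ⟨_, rfl⟩
  rw [← hGe] at hG
  obtain ⟨w, hw⟩ : ∃ w : E3 → ℝ, w = fun x => N h x + 2 * π / 3 * ‖x‖ ^ 2 - 2 * π := ⟨_, rfl⟩
  have hwc : Continuous w := hw ▸ (hh.N_cont.add (by fun_prop)).sub continuous_const
  have hwe : ∀ x, N f x + (N a x + 2 * π / 3 * ‖x‖ ^ 2 - 2 * π) = w x := by
    intro x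
    rw [hw, hhe]
    simp only [N_add hf.adm hA]
    ring
  simp only [hwe] at hf0 hf1
  obtain ⟨c0, hc0⟩ : ∃ c0 : ℝ, c0 = 2 * π * 1000 ^ 2 - 2 * π := ⟨_, rfl⟩
  have hwG : ∀ x : E3, ‖x‖ ≤ 1000 → w x = N G x + c0 := by
    intro x hx
    rw [hw, hGe, N_sub hh hB, hNb x hx, hc0]
    ring
  have hG1 : ∀ y, -1 ≤ G y := fun y => by rw [hGe]; linarith [hh0 y, hb1 y]
  have hG2 : ∀ y, ‖y‖ < 999 → G y = f y - 1 := fun y hy => by
    rw [hGe, hhe]; simp only [ha1 y hy, hb2 y hy, add_zero]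
  have hNh : ∀ x, 0 ≤ N h x := fun x => integral_nonneg fun y => mul_nonneg (hh0 y) (by positivity)
  have hwout : ∀ x : E3, 2 ≤ ‖x‖ → 0 < w x := by
    intro x hx
    have h1 : 4 ≤ ‖x‖ ^ 2 := by nlinarith
    rw [hw]
    nlinarith [hNh x]
  have hw0 : ∀ x, 0 ≤ w x := by
    intro x
    rcases le_total 2 ‖x‖ with hx | hx
    · exact (hwout x hx).le
    · have := max_principle (hG.cmul (-1)) (-c0) two_pos (fun x hx => by
        rw [N_cmul]; linarith [hwout x hx.ge, hwG x (by linarith)]) (by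
          filter_upwards [hf1] with y k1 k2 k3
          rw [N_cmul] at k3
          rw [hG2 y (by linarith), k1 k2 (by linarith [hwG y (by linarith)])]
          norm_num) x hx
      rw [N_cmul] at this
      linarith [hwG x (by linarith)]
  have hM : ∫ y, h y ≤ 40 := by
    have e1 : ∫ y, f y ≤ 4 * π / 3 * 2 ^ 3 := by
      rw [← vol_ball (0 : E3) two_pos, ← integral_indicator_one measurableSet_ball]
      refine integral_mono hf.adm.int ((integrable_indicator_iff measurableSet_ball).2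
        (integrableOn_const measure_ball_lt_top.ne)) fun y => ?_
      by_cases hy : y ∈ ball (0 : E3) 2
      · rw [indicator_of_mem hy]; exact (hf.bd y).2
      · rw [indicator_of_notMem hy, hf.supp y (not_lt.1 fun h => hy (mem_ball_zero_iff.2 h))]
    have e2 : ∫ y, a y ≤ 4 * π / 3 * 1 ^ 3 := by
      rw [← vol_ball (EuclideanSpace.single (0 : Fin 3) (1000 : ℝ) : E3) one_pos, ha]
      erw [integral_indicator_one AA_meas]
      exact measureReal_mono AA_sub measure_ball_lt_top.ne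
    rw [hhe, integral_add hf.adm.int hA.int]
    linarith
  have hsupp : ∀ y, h y ≠ 0 → ∀ x : E3, 90 ≤ ‖x‖ → ‖x‖ ≤ 300 → 88 ≤ ‖x - y‖ := by
    intro y hy x h1 h2
    rcases lt_or_ge ‖y‖ 999 with h3 | h3
    · have h4 : ‖y‖ < 2 := by
        by_contra h5
        exact hy (by rw [hhe]; simp [hf.supp y (not_lt.1 h5), ha1 y h3])
      linarith [norm_le_norm_sub_add x y]
    · linarith [norm_le_norm_sub_add y x, norm_sub_rev x y]
  have hKb : {x | w x = 0} ⊆ ball (0 : E3) 2 := fun x hx =>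
    mem_ball_zero_iff.2 (not_le.1 fun h => (hwout x h).ne' hx)
  have hKc : IsClosed {x | w x = 0} := isClosed_eq hwc continuous_const
  refine ⟨{x | w x = 0}, (isCompact_closedBall 0 2).of_isClosed_subset hKc
    (hKb.trans ball_subset_closedBall), ?_, hKb, fun p hp => boot hKc fun x0 hx0 s hs => ?_,
    fun hn1 hn2 => ⟨c0, fun P hP => ?_⟩⟩
  · by_contra hne
    have h1 : f =ᵐ[volume] fun _ => 0 := by
      filter_upwards [hf0] with y hy
      exact hy (lt_of_le_of_ne (hw0 y) fun h => hne ⟨y, h.symm⟩)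
    have h2 := hwe 0
    have h3 : N f 0 = 0 := by rw [N_congr h1]; simp [N]
    have h4 : N a 0 ≤ kr 1 ‖(0 : E3) - EuclideanSpace.single (0 : Fin 3) (1000 : ℝ)‖ := by
      rw [ha, N_ind AA_meas, ← ball_pot one_pos]
      exact setIntegral_mono_set (int_inv' _ _ _) (Eventually.of_forall fun y => by positivity)
        AA_sub.eventuallyLE
    have h5 : kr 1 ‖(0 : E3) - EuclideanSpace.single (0 : Fin 3) (1000 : ℝ)‖ = 4 * π / 3 / 1000 := by
      simp [kr]
    rw [h3] at h2
    simp only [norm_zero] at h2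
    linarith [hw0 0]
  · have hs0 : 0 < s := by linarith [hs.1]
    obtain ⟨l, hl⟩ : ∃ l : ℝ, l = s⁻¹ := ⟨_, rfl⟩
    have hl1 : 1 ≤ l := by rw [hl]; exact one_le_inv_iff₀.2 ⟨hs0, hs.2⟩
    have hl2 : l ≤ 2 := by rw [hl, inv_le_comm₀ hs0 two_pos]; linarith [hs.1]
    have hl0 : 0 < l := by linarith
    have hup : ∀ x : E3, ‖x‖ ≤ 100 → ‖p + l • (x - p)‖ ≤ 300 := by
      intro x hx
      refine (norm_add_le _ _).trans ?_
      rw [norm_smul, Real.norm_eq_abs, abs_of_pos hl0]
      nlinarith [norm_sub_le x p, norm_nonneg (x - p)]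
    have hv : ∀ x : E3, ‖x‖ ≤ 100 → N (fun y => G y - G (p + l • (y - p))) x +
        (c0 - (l ^ 2)⁻¹ * c0) = w x - (l ^ 2)⁻¹ * w (p + l • (x - p)) := by
      intro x hx
      rw [N_sub hG (hG.dil p hl1), N_dil G p x hl0, hwG x (by linarith),
        hwG _ (by linarith [hup x hx])]
      ring
    have key := max_principle (hG.sub (hG.dil p hl1)) (c0 - (l ^ 2)⁻¹ * c0)
      (show (0 : ℝ) < 100 by norm_num) (fun x hx => ?_) ?_ (p + s • (x0 - p)) ?_
    · have h1 : ‖p + s • (x0 - p)‖ ≤ 100 := by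
        refine (norm_add_le _ _).trans ?_
        rw [norm_smul, Real.norm_eq_abs, abs_of_pos hs0]
        have := mem_ball_zero_iff.1 (hKb hx0)
        nlinarith [norm_sub_le x0 p, norm_nonneg (x0 - p), hs.2]
      have h2 : p + l • (p + s • (x0 - p) - p) = x0 := by
        rw [add_sub_cancel_left, smul_smul, hl, inv_mul_cancel₀ hs0.ne', one_smul, add_sub_cancel]
      have h3 : w x0 = 0 := hx0
      rw [hv _ h1, h2, h3, mul_zero, sub_zero] at key
      exact le_antisymm key (hw0 _)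
    · rw [hv x hx.le, sub_nonpos, le_inv_mul_iff₀ (by positivity)]
      have e1 : p + l • (x - p) = l • x - (l - 1) • p := by module
      have n1 : 100 * l - (l - 1) / 1000 ≤ ‖p + l • (x - p)‖ := by
        rw [e1]
        have k1 := norm_sub_norm_le (l • x) ((l - 1) • p)
        rw [norm_smul, norm_smul, Real.norm_eq_abs, Real.norm_eq_abs, abs_of_pos hl0,
          abs_of_nonneg (by linarith), hx] at k1
        nlinarith
      have n2 : (100 * l - (l - 1) / 1000) ^ 2 ≤ ‖p + l • (x - p)‖ ^ 2 := by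
        have : 0 ≤ 100 * l - (l - 1) / 1000 := by linarith
        gcongr
      have n3 : ‖x - (p + l • (x - p))‖ ≤ (l - 1) * 101 := by
        have : x - (p + l • (x - p)) = -((l - 1) • (x - p)) := by module
        rw [this, norm_neg, norm_smul, Real.norm_eq_abs, abs_of_nonneg (by linarith)]
        refine mul_le_mul_of_nonneg_left ?_ (by linarith)
        linarith [norm_sub_le x p]
      obtain ⟨f1, f2⟩ := far hh hh0 hM (show (0 : ℝ) < 88 by norm_num) (x := x)
        (x' := p + l • (x - p)) fun y hy => ⟨hsupp y hy x (by linarith) (by linarith),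
          hsupp y hy _ (by linarith) (hup x hx.le)⟩
      have f0 := hNh x
      have g1 : (l ^ 2 - 1) * N h x ≤ (l - 1) * 3 * (1 / 2) :=
        mul_le_mul (by nlinarith) (by linarith) f0 (by linarith)
      have g2 : N h x - N h (p + l • (x - p)) ≤ (l - 1) := by linarith
      have g3 : l ^ 2 * 100 ^ 2 - ‖p + l • (x - p)‖ ^ 2 ≤ (l - 1) * (1 / 2) := by
        nlinarith [sq_nonneg (l - 1)]
      have g4 : 2 * π / 3 * (l ^ 2 * 100 ^ 2 - ‖p + l • (x - p)‖ ^ 2) ≤
          2 * π / 3 * ((l - 1) * (1 / 2)) := mul_le_mul_of_nonneg_left g3 (by positivity)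
      have g5 : 2 * π * (2 * (l - 1)) ≤ 2 * π * (l ^ 2 - 1) :=
        mul_le_mul_of_nonneg_left (by nlinarith) (by positivity)
      have g6 : 3 * (l - 1) ≤ π * (l - 1) := mul_le_mul_of_nonneg_right hπ3.le (by linarith)
      rw [hw]
      simp only [hx]
      nlinarith
    · filter_upwards [hf0] with y k1 k2 k3
      rw [hv y k2.le] at k3
      have k4 : 0 ≤ (l ^ 2)⁻¹ * w (p + l • (y - p)) := mul_nonneg (by positivity) (hw0 _)
      rw [hG2 y (by linarith), k1 (by linarith)]
      linarith [hG1 (p + l • (y - p))]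
    · refine (norm_add_le _ _).trans ?_
      rw [norm_smul, Real.norm_eq_abs, abs_of_pos hs0]
      have := mem_ball_zero_iff.1 (hKb hx0)
      nlinarith [norm_sub_le x0 p, norm_nonneg (x0 - p), hs.2]
  · have hin : ∀ y ∈ interior {x | w x = 0}, ‖y‖ < 2 ∧ w y = 0 := fun y hy =>
      ⟨mem_ball_zero_iff.1 (hKb (interior_subset hy)), interior_subset (s := {x | w x = 0}) hy⟩
    have hz := zero_of_const hG isOpen_interior (O := interior {x | w x = 0}) (c := -c0)
      (fun y hy => by rw [hG2 y (by linarith [(hin y hy).1])]; linarith [(hf.bd y).2])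
      (fun y hy => by linarith [(hin y hy).2, hwG y (by linarith [(hin y hy).1])])
    simp only [dist_eq_norm]
    rw [← N_ind (isOpen_interior.measurableSet.diff hKc.measurableSet),
      N_congr (g := fun y => -1 * G y), N_cmul]
    · linarith [(hin P hP).2, hwG P (by linarith [(hin P hP).1])]
    · filter_upwards [hz, hf0, compl_mem_ae_iff.2 hn1, compl_mem_ae_iff.2 hn2,
        compl_mem_ae_iff.2 (Measure.addHaar_sphere volume (0 : E3) 1000)] with y k1 k2 k3 k4 k5
      by_cases hy : w y = 0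
      · rw [indicator_of_notMem (fun h => h.2 hy), k1 (by
          by_contra h
          exact k3 ⟨hy, h⟩)]
        simp
      · have k6 := k2 (lt_of_le_of_ne (hw0 y) (Ne.symm hy))
        rw [hGe, hhe, ha, hb]
        simp only [k6]
        by_cases hK : y ∈ KK
        · have k7 : y ∈ interior KK := by
            by_contra h
            exact k4 ⟨hK, h⟩
          have k8 : y ∈ ball (0 : E3) 1000 := by
            rw [mem_ball_zero_iff]
            exact lt_of_le_of_ne (mem_closedBall_zero_iff.1 hK.1)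
              fun h => k5 (mem_sphere_zero_iff_norm.2 h)
          rw [indicator_of_mem (show y ∈ interior KK \ {x | w x = 0} from ⟨k7, hy⟩),
            indicator_of_notMem (fun h => h.2 hK), indicator_of_mem k8]
          norm_num
        · rw [indicator_of_notMem (fun h => hK (interior_subset h.1))]
          by_cases k8 : y ∈ ball (0 : E3) 1000
          · rw [indicator_of_mem (show y ∈ AA from ⟨k8, hK⟩), indicator_of_mem k8]
            norm_num
          · rw [indicator_of_notMem (fun h => k8 h.1), indicator_of_notMem k8]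
            norm_num

lemma KK_star : ∀ p : E3, ‖p‖ < 1 / 1000 → ∀ x ∈ KK, ∀ s ∈ Icc (0 : ℝ) 1, p + s • (x - p) ∈ KK := by
  intro p hp x hx s hs
  have hl : IsLinearMap ℝ (fun y : E3 => y 0) := ⟨fun _ _ => rfl, fun _ _ => rfl⟩
  have hc : Convex ℝ KK := (convex_closedBall _ _).inter (convex_halfSpace_le hl _)
  exact hc.add_smul_sub_mem (ball_KK (mem_ball_zero_iff.2 (by linarith))) hx hs

lemma flat (t : ℝ) (ht : t ^ 2 ≤ 1 / 100) :
    (!₂[1000 - 1 / 8000, t, 0] : E3) ∈ KK \ interior KK := by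
  refine ⟨⟨?_, by simp⟩, fun h => ?_⟩
  · rw [mem_closedBall_zero_iff, ← sq_le_sq₀ (norm_nonneg _) (by norm_num),
      EuclideanSpace.real_norm_sq_eq, Fin.sum_univ_three]
    simp
    linarith
  · have hc : Continuous (fun u : ℝ => (!₂[u, t, 0] : E3)) := by fun_prop
    have h1 : ∀ᶠ u in 𝓝[>] (1000 - 1 / 8000 : ℝ), (!₂[u, t, 0] : E3) ∈ interior KK :=
      ((hc.tendsto _).mono_left nhdsWithin_le_nhds).eventually (isOpen_interior.mem_nhds h)
    obtain ⟨u, h2, h3⟩ := (h1.and self_mem_nhdsWithin).exists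
    have h4 : u ≤ 1000 - 1 / 8000 := (interior_subset h2).2
    exact absurd h3 (not_lt.2 h4)

lemma not_ellipsoid (f : E3 ≃ᵃ[ℝ] E3) : KK \ interior KK ≠ f '' sphere (0 : E3) 1 := by
  intro h
  obtain ⟨a, ha, ha'⟩ := h ▸ flat (1 / 10) (by norm_num)
  obtain ⟨b, hb, hb'⟩ := h ▸ flat (-(1 / 10)) (by norm_num)
  obtain ⟨c, hc, hc'⟩ := h ▸ flat 0 (by norm_num)
  have h1 : f (midpoint ℝ a b) = f c := by
    rw [AffineEquiv.map_midpoint, ha', hb', hc', midpoint_eq_smul_add]
    ext i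
    fin_cases i <;> simp
    norm_num
  have h2 := f.injective h1
  rw [mem_sphere_zero_iff_norm] at ha hb hc
  rw [← h2, midpoint_eq_smul_add, norm_smul] at hc
  have h3 : ‖a + b‖ = 2 := by
    simp at hc
    linarith
  have h4 := parallelogram_law_with_norm ℝ a b
  rw [h3, ha, hb] at h4
  have h5 : a = b := sub_eq_zero.1 (norm_eq_zero.1 (by nlinarith [norm_nonneg (a - b)]))
  rw [h5, hb'] at ha'
  have h6 := congrArg (fun x : E3 => x 1) ha'
  simp at h6
  norm_num at h6

end Pool.Agent.H27Z.NW
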